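import Pool.Agent.H34.PC.LevSat
import Pool.Agent.H73.PC.BStm
import Pool.Agent.H53.PC.Step

/-!
# Plan C: the sum over the levels, for the blocks of the steps
-/

set_option autoImplicit false

namespace Pool.PC

open Finset Real
open Pool.Agent.H49.Ent Pool.Agent.H32.Dense Pool.STK Pool.KA Pool.KSAT Pool.K2S Pool.S6U

variable {J : ℕ} {F : Fam 2 J}

/-- The number of the top steps is at most the number of the block. -/
theorem tiB_le34 {i0 : Fin 2} {q w X lX : ℕ} {z : F.Ω → Fin 2 → ℝ} {S : Type} (C : F.Ω → S)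
    (hz0 : ∀ ω, z ω i0 = 0) (hq : q + w + X ≤ J) :
    tiB F i0 q w X C ≤
      Pool.OC.RS.mi F.p (F.T1 (w + X)) (F.ctt w (q + X) lX i0 z) C := by
  have hp := F.isLaw.nonneg
  have h1 := Pool.OC.RS.mi_mono hp (F.T1 (w + X)) (F.ctt w (q + X) lX i0 z)
    (fun ω => (⌊(2 : ℝ) ^ (q + w + X) * F.x1 w ω i0⌋, ⌊(2 : ℝ) ^ (q + X) * F.d ω i0⌋)) C
    (fun ω ω' _ _ h => by
      obtain ⟨a1, a2⟩ := ctt_cells (by omega) hz0 (Prod.ext_iff.mp h).1
      have e : q + X + w = q + w + X := by omega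
      rw [e] at a1
      exact Prod.ext a1 a2)
  refine le_trans (le_of_eq ?_) h1
  rw [Pool.OC.RS.mi_eq hp]
  unfold tiB dp
  rfl

/-- The number of the steps below the top is at most the number of the block. -/
theorem ctx_le34 {i0 : Fin 2} {q w X l : ℕ} {z : F.Ω → Fin 2 → ℝ} {S T : Type} (V : F.Ω → T)
    (C : F.Ω → S) (hz0 : ∀ ω, z ω i0 = 0) (hq : q + w + X ≤ J) :
    Pool.OC.RS.mi F.p V (ctx F (q + X) i0 w l z) C ≤
      Pool.OC.RS.mi F.p V (F.ctt w (q + X) l i0 z) C :=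
  Pool.OC.RS.mi_mono F.isLaw.nonneg V (F.ctt w (q + X) l i0 z) (ctx F (q + X) i0 w l z) C
    (fun _ _ _ _ h => ctx_of_ctt hz0 (by omega) (Prod.ext_iff.mp h).1)

/-- **(KCH)** The sum over the levels which are closed at one window. -/
theorem kch_stmt34 : KchStmt := by
  refine ⟨cLN, cLN_nonneg, ?_⟩
  intro J F M g s X B N wk l z w hc hK hXs hw
  have hl2 : 0 ≤ Real.log 2 := Real.log_nonneg (by norm_num)
  have hc0 : 0 ≤ cLN + 4 * s * Real.log 2 := by
    have := cLN_nonneg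
    positivity
  have h1 := mi_sum34 (F := F) (B := B) (wk := wk) (l := l) (z := z) F.isLaw.nonneg
    (F.T1 (w + X))
    (fun k => F.ctt w ((B k).q + X) (min (l k) (J - ((B k).q + X))) (B k).i0 (z k)) (w := w)
    ((range M).filter (fun k => wk k ≤ w ∧ (B k).q + w + X ≤ J)) (a := X * Real.log 2)
    (c₀ := cLN + 4 * s * Real.log 2) (by positivity) hc0 ?_ ?_
  · refine h1.trans ?_
    have h2 : (((range M).filter (fun k => wk k ≤ w ∧ (B k).q + w + X ≤ J)).card : ℝ) ≤ M := by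
      have h3 := Finset.card_le_card (Finset.filter_subset
        (fun k => wk k ≤ w ∧ (B k).q + w + X ≤ J) (range M))
      rw [Finset.card_range] at h3
      exact_mod_cast h3
    have h3 := mul_le_mul_of_nonneg_right h2 hc0
    linarith
  · intro k hk
    rw [mem_filter, mem_range] at hk
    exact cum_T34 hw hk.2.1
  · intro k hk k' hk' hlt
    rw [mem_filter, mem_range] at hk hk'
    obtain ⟨a1, a2, a3⟩ := hk
    obtain ⟨b1, b2, b3⟩ := hk'
    obtain ⟨a4, a5, a6⟩ := hK k a1 (by omega)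
    obtain ⟨b4, b5, b6⟩ := hK k' b1 (by omega)
    exact levnest_sat_cum hc (by omega) hlt b1 a2 b2 a4 b4 a5 b6 (by omega)
      (min_le_left _ _) (by
        have := min_le_right (l k) (J - ((B k).q + X))
        omega)

/-- The number `tik` bounds the number of the top steps. -/
theorem tiB_tik34 {B : ℕ → Bx F} {wk l : ℕ → ℕ} {z : ℕ → F.Ω → Fin 2 → ℝ} {X k w : ℕ}
    (hz0 : ∀ ω, z k ω (B k).i0 = 0) (hq : (B k).q + w + X ≤ J) :
    tiB F (B k).i0 (B k).q w X (cum F B wk l z k w) ≤ tik F B wk l z X k w :=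
  tiB_le34 _ hz0 hq

/-- The number `tik` bounds the number of the steps below the top. -/
theorem ctx_tik34 {B : ℕ → Bx F} {wk l : ℕ → ℕ} {z : ℕ → F.Ω → Fin 2 → ℝ} {X k w : ℕ}
    (hz0 : ∀ ω, z k ω (B k).i0 = 0) (hq : (B k).q + l k + w + X ≤ J) :
    Pool.OC.RS.mi F.p (F.T1 (w + X)) (ctx F ((B k).q + X) (B k).i0 w (l k) (z k))
      (cum F B wk l z k w) ≤ tik F B wk l z X k w := by
  have e : min (l k) (J - ((B k).q + X)) = l k := min_eq_left (by omega)
  unfold tik
  rw [e]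
  exact ctx_le34 _ _ hz0 (by omega)

end Pool.PC
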