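import Pool.Agent.H54.PC.Cnt
import Pool.Agent.H60.KS2.Defs

/-!
# Exact boxes: the fans at the exact points are not near lines, also given bounded additional
information (hypothesis of K_SAT2)
-/

set_option autoImplicit false

namespace Pool.PC

open Finset Real
open Pool.Agent.H49.Ent Pool.Agent.H32.Dense Pool.STK Pool.KA Pool.K2S

/-! ### Total probability -/

theorem tower34 {Ω Ξ : Type} [Fintype Ω] {p : Ω → ℝ} (hp : ∀ ω, 0 ≤ p ω) (W : Ω → Ξ)
    (Fl : Ξ → Prop) [DecidablePred Fl] (G : Ω → Prop) :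
    ∑ ω, (if Fl (W ω) then p ω * Pe (cond p W (W ω)) G else 0) =
      Pe p (fun ω => Fl (W ω) ∧ G ω) := by
  classical
  have e1 : ∀ ω, (if Fl (W ω) then p ω * Pe (cond p W (W ω)) G else 0) =
      ∑ v, (if Fl (W v) ∧ G v ∧ W v = W ω then p ω * (p v / law p W (W v)) else 0) := by
    intro ω
    by_cases h1 : Fl (W ω)
    · rw [if_pos h1, Pe_eq, Finset.mul_sum]
      refine Finset.sum_congr rfl fun v _ => ?_
      unfold Pool.Agent.H49.Ent.cond
      by_cases h2 : W v = W ω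
      · by_cases h3 : G v
        · rw [if_pos h3, if_pos h2, if_pos ⟨by rw [h2]; exact h1, h3, h2⟩, h2]
        · rw [if_neg h3, if_neg (fun h => h3 h.2.1), mul_zero]
      · rw [if_neg (c := Fl (W v) ∧ G v ∧ W v = W ω) (fun h => h2 h.2.2)]
        by_cases h3 : G v
        · rw [if_pos h3, if_neg h2, mul_zero]
        · rw [if_neg h3, mul_zero]
    · rw [if_neg h1]
      symm
      refine Finset.sum_eq_zero fun v _ => ?_
      rw [if_neg]
      rintro ⟨h2, -, h3⟩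
      exact h1 (h3 ▸ h2)
  rw [Finset.sum_congr rfl fun ω _ => e1 ω, Finset.sum_comm, Pe_eq]
  refine Finset.sum_congr rfl fun v _ => ?_
  by_cases h1 : Fl (W v) ∧ G v
  · rw [if_pos h1]
    have e2 : ∀ ω, (if Fl (W v) ∧ G v ∧ W v = W ω then p ω * (p v / law p W (W v)) else 0) =
        (if W ω = W v then p ω else 0) * (p v / law p W (W v)) := by
      intro ω
      by_cases h2 : W v = W ω
      · rw [if_pos ⟨h1.1, h1.2, h2⟩, if_pos h2.symm]
      · rw [if_neg (fun h => h2 h.2.2), if_neg (fun h => h2 h.symm), zero_mul]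
    rw [Finset.sum_congr rfl fun ω _ => e2 ω, ← Finset.sum_mul]
    have e3 : ∑ ω, (if W ω = W v then p ω else 0) = law p W (W v) := rfl
    rw [e3]
    by_cases h3 : law p W (W v) = 0
    · rw [h3, zero_mul]
      have h4 : p v ≤ law p W (W v) := by
        rw [← e3]
        have := Finset.single_le_sum (f := fun ω => if W ω = W v then p ω else 0)
          (fun ω _ => by
            show 0 ≤ (if W ω = W v then p ω else 0)
            split_ifs
            · exact hp ω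
            · exact le_rfl) (Finset.mem_univ v)
        simpa using this
      have := hp v
      linarith
    · field_simp
  · rw [if_neg h1]
    refine Finset.sum_eq_zero fun ω _ => ?_
    rw [if_neg]
    exact fun h => h1 ⟨h.1, h.2.1⟩

/-- If the event has conditional probability more than `δ` on a part which is a function of `W`. -/
theorem tower_ge34 {Ω Ξ : Type} [Fintype Ω] {p : Ω → ℝ} (hp : ∀ ω, 0 ≤ p ω) (W : Ω → Ξ)
    (Fl : Ξ → Prop) (G : Ω → Prop) {δ : ℝ}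
    (h : ∀ ω, 0 < p ω → Fl (W ω) → δ ≤ Pe (cond p W (W ω)) G) :
    δ * Pe p (fun ω => Fl (W ω)) ≤ Pe p (fun ω => Fl (W ω) ∧ G ω) := by
  classical
  rw [← tower34 hp, Pe_eq, Finset.mul_sum]
  refine Finset.sum_le_sum fun ω _ => ?_
  by_cases h1 : Fl (W ω)
  · rw [if_pos h1, if_pos h1]
    rcases (hp ω).eq_or_lt with h2 | h2
    · rw [← h2, mul_zero, zero_mul]
    · rw [mul_comm]
      exact mul_le_mul_of_nonneg_left (h ω h2 h1) h2.le
  · rw [if_neg h1, if_neg h1, mul_zero]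

/-- A conditional law sees only the fibre. -/
theorem pe_fibre34 {Ω Ξ : Type} [Fintype Ω] {p : Ω → ℝ} (W : Ω → Ξ) (x : Ξ) {G G' : Ω → Prop}
    (h : ∀ v, W v = x → (G v ↔ G' v)) : Pe (cond p W x) G = Pe (cond p W x) G' := by
  classical
  rw [Pe_eq, Pe_eq]
  refine Finset.sum_congr rfl fun v _ => ?_
  unfold Pool.Agent.H49.Ent.cond
  by_cases h1 : W v = x
  · by_cases h2 : G v
    · rw [if_pos h2, if_pos ((h v h1).1 h2)]
    · rw [if_neg h2, if_neg (fun h3 => h2 ((h v h1).2 h3))]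
  · rw [if_neg h1]
    simp

/-! ### The likeliest value -/

/-- If `W` has at most `N` values given `P`, then on a part of proportion `1 / N` the variable
`W` is a function of `P`. -/
theorem cnt_pigeon {m J : ℕ} {F : Fam m J} {A : F.Ω → Prop} {α Ξ : Type} {P : F.Ω → α}
    {W : F.Ω → Ξ} {N : ℝ} (hN : Cnt F A P W N) {E : F.Ω → Prop} (hE : ∀ ω, E ω → On F A ω) :
    ∃ E' : F.Ω → Prop, (∀ ω, E' ω → E ω) ∧ Pe F.p E ≤ N * Pe F.p E' ∧
      ∀ ω ω', E' ω → E' ω' → P ω = P ω' → W ω = W ω' := by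
  classical
  by_cases hne : ∃ ω, E ω
  swap
  · refine ⟨E, fun _ h => h, ?_, fun ω _ h => absurd ⟨ω, h⟩ hne⟩
    have : Pe F.p E = 0 := by
      rw [Pe_eq]
      exact Finset.sum_eq_zero fun ω _ => if_neg fun h => hne ⟨ω, h⟩
    rw [this, mul_zero]
  obtain ⟨o₀, ho₀⟩ := hne
  obtain ⟨s, hs⟩ : ∃ s : Finset F.Ω, s = univ.filter fun ω => E ω := ⟨_, rfl⟩
  obtain ⟨ms, hms⟩ : ∃ ms : α → Ξ → ℝ, ms = fun y x =>
      ∑ ω ∈ (s.filter fun ω => P ω = y).filter (fun ω => W ω = x), F.p ω := ⟨_, rfl⟩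
  have hex : ∀ y : α, ∃ o : F.Ω, (s.filter fun ω => P ω = y).Nonempty →
      o ∈ (s.filter fun ω => P ω = y) ∧
      ∀ ω ∈ (s.filter fun ω => P ω = y), ms y (W ω) ≤ ms y (W o) := by
    intro y
    by_cases h : (s.filter fun ω => P ω = y).Nonempty
    · obtain ⟨o, ho, hmax⟩ := Finset.exists_max_image _ (fun ω => ms y (W ω)) h
      exact ⟨o, fun _ => ⟨ho, hmax⟩⟩
    · exact ⟨o₀, fun h' => absurd h' h⟩
  choose o ho using hex
  refine ⟨fun ω => E ω ∧ W ω = W (o (P ω)), fun ω h => h.1, ?_, ?_⟩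
  · have e1 : Pe F.p E = ∑ ω ∈ s, F.p ω := by
      rw [Pe_eq, hs, Finset.sum_filter]
    have e2 : Pe F.p (fun ω => E ω ∧ W ω = W (o (P ω))) =
        ∑ ω ∈ s.filter (fun ω => W ω = W (o (P ω))), F.p ω := by
      rw [Pe_eq, hs, Finset.filter_filter, Finset.sum_filter]
      refine Finset.sum_congr rfl fun ω _ => ?_
      by_cases h : E ω ∧ W ω = W (o (P ω))
      · rw [if_pos h, if_pos h]
      · rw [if_neg h, if_neg h]
    rw [e1, e2]
    obtain ⟨t, ht⟩ : ∃ t : Finset α, t = s.image P := ⟨_, rfl⟩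
    have m1 : ∀ ω ∈ s, P ω ∈ t := fun ω hω => by
      rw [ht]
      exact Finset.mem_image_of_mem P hω
    have m2 : ∀ ω ∈ s.filter (fun ω => W ω = W (o (P ω))), P ω ∈ t := fun ω hω =>
      m1 ω (Finset.mem_filter.1 hω).1
    rw [← Finset.sum_fiberwise_of_maps_to m1, ← Finset.sum_fiberwise_of_maps_to m2,
      Finset.mul_sum]
    refine Finset.sum_le_sum fun y hy => ?_
    rw [ht, Finset.mem_image] at hy
    obtain ⟨ω₁, hω₁, hy⟩ := hy
    have hSne : (s.filter fun ω => P ω = y).Nonempty :=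
      ⟨ω₁, Finset.mem_filter.2 ⟨hω₁, hy⟩⟩
    obtain ⟨hoy, hmax⟩ := ho y hSne
    have hE1 : E ω₁ := by
      rw [hs] at hω₁
      exact (Finset.mem_filter.1 hω₁).2
    have m3 : ∀ ω ∈ (s.filter fun ω => P ω = y), W ω ∈
        (s.filter fun ω => P ω = y).image W := fun ω hω => Finset.mem_image_of_mem W hω
    have hcard : (((s.filter fun ω => P ω = y).image W).card : ℝ) ≤ N := by
      refine le_trans (Nat.cast_le.2 (Finset.card_le_card (Finset.image_subset_image ?_)))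
        (hN ω₁ (hE ω₁ hE1))
      intro ω hω
      obtain ⟨h1, h2⟩ := Finset.mem_filter.1 hω
      rw [hs] at h1
      have h3 := (Finset.mem_filter.1 h1).2
      exact Finset.mem_filter.2 ⟨Finset.mem_univ ω, hE ω h3, h2.trans hy.symm⟩
    have e3 : (s.filter (fun ω => W ω = W (o (P ω)))).filter (fun ω => P ω = y) =
        (s.filter fun ω => P ω = y).filter (fun ω => W ω = W (o y)) := by
      ext ω
      simp only [Finset.mem_filter]
      constructor
      · rintro ⟨⟨h1, h2⟩, h3⟩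
        exact ⟨⟨h1, h3⟩, by rw [h2, h3]⟩
      · rintro ⟨⟨h1, h2⟩, h3⟩
        exact ⟨⟨h1, by rw [h3, h2]⟩, h2⟩
    have e4 : ∑ ω ∈ (s.filter (fun ω => W ω = W (o (P ω)))).filter (fun ω => P ω = y), F.p ω =
        ms y (W (o y)) := by
      rw [e3, hms]
    have h0 : 0 ≤ ms y (W (o y)) := by
      rw [hms]
      exact Finset.sum_nonneg fun ω _ => F.isLaw.nonneg ω
    rw [e4, ← Finset.sum_fiberwise_of_maps_to m3]
    calc ∑ x ∈ (s.filter fun ω => P ω = y).image W,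
          ∑ ω ∈ (s.filter fun ω => P ω = y).filter (fun ω => W ω = x), F.p ω
        ≤ ∑ _x ∈ (s.filter fun ω => P ω = y).image W, ms y (W (o y)) := by
          refine Finset.sum_le_sum fun x hx => ?_
          obtain ⟨ω, hω, rfl⟩ := Finset.mem_image.1 hx
          have := hmax ω hω
          rw [hms] at this ⊢
          exact this
      _ = (((s.filter fun ω => P ω = y).image W).card : ℝ) * ms y (W (o y)) := by
          rw [Finset.sum_const, nsmul_eq_mul]
      _ ≤ N * ms y (W (o y)) := mul_le_mul_of_nonneg_right hcard h0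
  · intro ω ω' h1 h2 e
    have a1 := h1.2
    have a2 := h2.2
    rw [a1, a2, e]

/-! ### Geometry -/

theorem exa_geo34 {al be κ C0 r : ℝ} {s C : ℕ} (h1 : al ^ 2 + be ^ 2 = 1) (hκ : |κ| ≤ C0)
    (hC : 4 * (1 + C0) ≤ 2 ^ C) (hr0 : 0 < r) (hr : 1 ≤ r * 2 ^ s) (hr1 : r ≤ 1) :
    1 / 2 ^ (s + C) ≤ max |al + be * κ| |be * r| := by
  have hC0 : 0 ≤ C0 := (abs_nonneg _).trans hκ
  have hs0 : (0 : ℝ) < 2 ^ s := by positivity
  have hs1 : (1 : ℝ) ≤ 2 ^ s := one_le_pow₀ (by norm_num)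
  have hCp : (0 : ℝ) < 2 ^ C := by positivity
  have hb1 : |be| ≤ 1 := by
    rw [← sq_le_one_iff_abs_le_one]
    nlinarith [sq_nonneg al]
  rw [div_le_iff₀ (by positivity), pow_add]
  by_cases hb : 1 ≤ |be| * (2 * (1 + C0))
  · have k1 : |be * r| ≤ max |al + be * κ| |be * r| := le_max_right _ _
    rw [abs_mul, abs_of_pos hr0] at k1 ⊢
    have k2 : |be| * r * (2 ^ s * 2 ^ C) ≤ max |al + be * κ| (|be| * r) * (2 ^ s * 2 ^ C) :=
      mul_le_mul_of_nonneg_right k1 (by positivity)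
    refine le_trans ?_ k2
    have k3 : |be| * r * (2 ^ s * 2 ^ C) = |be| * 2 ^ C * (r * 2 ^ s) := by ring
    rw [k3]
    have k4 : 1 ≤ |be| * 2 ^ C := by
      have : |be| * (4 * (1 + C0)) ≤ |be| * 2 ^ C :=
        mul_le_mul_of_nonneg_left hC (abs_nonneg _)
      linarith
    nlinarith
  · push Not at hb
    have k1 : |al + be * κ| ≤ max |al + be * κ| |be * r| := le_max_left _ _
    have k2 : |be| * C0 ≤ 1 / 2 := by nlinarith [abs_nonneg be]
    have k3 : |be| ≤ 1 / 2 := by nlinarith [abs_nonneg be]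
    have k4 : 3 / 4 ≤ |al| := by
      by_contra hcon
      push Not at hcon
      have h5 := abs_nonneg al
      have h6 := abs_nonneg be
      have h7 : |al| ^ 2 + |be| ^ 2 = 1 := by rw [sq_abs, sq_abs]; exact h1
      nlinarith
    have k5 : |be * κ| ≤ |be| * C0 := by
      rw [abs_mul]
      exact mul_le_mul_of_nonneg_left hκ (abs_nonneg _)
    have k6 : 1 / 4 ≤ |al + be * κ| := by
      have e1 : al = (al + be * κ) - be * κ := by ring
      have e2 : |al| ≤ |al + be * κ| + |be * κ| := by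
        calc |al| = |(al + be * κ) - be * κ| := by rw [← e1]
          _ ≤ _ := abs_sub _ _
      linarith
    have k7 : (4 : ℝ) ≤ 2 ^ s * 2 ^ C := by nlinarith
    have k8 : 1 / 4 ≤ max |al + be * κ| |be * r| := k6.trans k1
    nlinarith

theorem exa_line34 {al be ga x y z a c0 c1 fx fy g' h' M : ℝ} {q n l s' : ℕ}
    (hn : n = q + l + s') (hM : 0 < M)
    (hb : |al * (2 ^ q * x - c0) + be * (2 ^ (q + l) * (y - z * x) - c1) - ga| ≤ g')
    (hg : g' ≤ h' * M) :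
    |(al + be * (2 ^ l * (a - z))) / M * (2 ^ q * x - fx) +
        be * (1 / 2 ^ s') / M * (2 ^ n * (y - a * x) - fy) -
        ((ga + al * c0 + be * c1) / M - (al + be * (2 ^ l * (a - z))) / M * fx -
          be * (1 / 2 ^ s') / M * fy)| ≤ h' := by
  have e1 : (al + be * (2 ^ l * (a - z))) / M * (2 ^ q * x - fx) +
        be * (1 / 2 ^ s') / M * (2 ^ n * (y - a * x) - fy) -
        ((ga + al * c0 + be * c1) / M - (al + be * (2 ^ l * (a - z))) / M * fx -
          be * (1 / 2 ^ s') / M * fy) =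
      (al * (2 ^ q * x - c0) + be * (2 ^ (q + l) * (y - z * x) - c1) - ga) / M := by
    rw [hn, pow_add 2 (q + l) s', pow_add 2 q l]
    field_simp
    ring
  rw [e1, abs_div, abs_of_pos hM, div_le_iff₀ hM]
  exact hb.trans hg

/-- **EXA2KS.** If the boxes are exact, then the fans at the exact points, given bounded additional
information, are not near lines with probability more than `δ`, except with probability `δ`. -/
theorem exa2ks {J : ℕ} {F : Fam 2 J} {A : F.Ω → Prop} (hA : 0 < Pe F.p A) (B : Bx F)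
    {α Ξ : Type} {P : F.Ω → α} (W : F.Ω → Ξ) (hP : DetA F A P B.lab) {N : ℝ}
    (hN : Cnt F A P W N) {z c0 c1 : F.Ω → ℝ}
    (hz : DetA F A W (fun ω => (z ω, (c0 ω, c1 ω)))) {C0 : ℝ} {l s C h g : ℕ}
    (hcl : ∀ ω, On F A ω → |B.a ω - z ω| ≤ C0 / 2 ^ l) (hl : B.q + l ≤ B.n)
    (hs : B.n ≤ B.q + l + s) (hC : 4 * (1 + C0) ≤ 2 ^ C) (hg : h + s + C ≤ g) {δ : ℝ}
    (hδ : 0 < δ)
    (hno : ∀ E : F.Ω → Prop, (∀ ω, E ω → A ω) → δ ^ 2 / N * Pe F.p A ≤ Pe F.p E →
      ¬ NearLine F B E P h)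
    (o : Fin 2 → F.Ω → ℝ) (ho0 : ∀ ω, On F A ω → o 0 ω = 2 ^ B.q * F.d ω B.i0 - c0 ω)
    (ho1 : ∀ ω, On F A ω →
      o 1 ω = 2 ^ (B.q + l) * (F.d ω (oth B.i0) - z ω * F.d ω B.i0) - c1 ω) :
    Pool.KAF.Pr (cond F.p A True) {ω | ∃ a b c : ℝ, a ^ 2 + b ^ 2 = 1 ∧
      δ < Pool.KAF.Pr (cond (cond F.p A True) W (W ω))
        {v | |a * o 0 v + b * o 1 v - c| ≤ 1 / 2 ^ g}} ≤ δ := by
  classical
  by_contra hcon
  push Not at hcon
  obtain ⟨p', hp'⟩ : ∃ p' : F.Ω → ℝ, p' = cond F.p A True := ⟨_, rfl⟩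
  have hlaw : IsLaw p' := by rw [hp']; exact isLaw_cond F.isLaw hA
  have hpos : ∀ ω, 0 < p' ω ↔ On F A ω := by
    intro ω
    rw [hp']
    unfold Pool.Agent.H49.Ent.cond On
    by_cases h1 : A ω
    · rw [if_pos (eq_true h1)]
      constructor
      · intro h2
        refine ⟨?_, h1⟩
        by_contra h3
        have h4 := F.isLaw.nonneg ω
        have h5 : F.p ω = 0 := le_antisymm (not_lt.1 h3) h4
        rw [h5, zero_div] at h2
        exact lt_irrefl _ h2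
      · intro h2
        exact div_pos h2.1 hA
    · rw [if_neg (fun h => h1 (of_eq_true h))]
      constructor
      · intro h2
        exact absurd h2 (lt_irrefl _)
      · intro h2
        exact absurd h2.2 h1
  rw [← hp'] at hcon
  -- the lines
  obtain ⟨Fl, hFl⟩ : ∃ Fl : Ξ → Prop, Fl = fun x => ∃ a b c : ℝ, a ^ 2 + b ^ 2 = 1 ∧
      δ < Pool.KAF.Pr (cond p' W x) {v | |a * o 0 v + b * o 1 v - c| ≤ 1 / 2 ^ g} := ⟨_, rfl⟩
  have hch : ∀ x : Ξ, ∃ t : ℝ × (ℝ × ℝ), Fl x → t.1 ^ 2 + t.2.1 ^ 2 = 1 ∧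
      δ < Pool.KAF.Pr (cond p' W x) {v | |t.1 * o 0 v + t.2.1 * o 1 v - t.2.2| ≤ 1 / 2 ^ g} := by
    intro x
    by_cases hx : Fl x
    · have hx' := hx
      rw [hFl] at hx'
      obtain ⟨a, b, c, h1, h2⟩ := hx'
      exact ⟨(a, (b, c)), fun _ => ⟨h1, h2⟩⟩
    · exact ⟨(0, (0, 0)), fun h => absurd h hx⟩
  choose t ht using hch
  obtain ⟨G, hG⟩ : ∃ G : F.Ω → Prop, G = fun v =>
      |(t (W v)).1 * o 0 v + (t (W v)).2.1 * o 1 v - (t (W v)).2.2| ≤ 1 / 2 ^ g := ⟨_, rfl⟩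
  have hGfl : ∀ ω, 0 < p' ω → Fl (W ω) → δ ≤ Pe (cond p' W (W ω)) G := by
    intro ω _ hω
    have h1 := (ht (W ω) hω).2.le
    refine h1.trans (le_of_eq ?_)
    refine pe_fibre34 (p := p') W (W ω) (G := fun v => v ∈ {v | |(t (W ω)).1 * o 0 v +
      (t (W ω)).2.1 * o 1 v - (t (W ω)).2.2| ≤ 1 / 2 ^ g}) (G' := G) (fun v hv => ?_)
    rw [hG]
    simp only [Set.mem_ofPred_eq]
    rw [hv]
  have h3 := tower_ge34 hlaw.nonneg W Fl G hGfl
  have h4 : δ < Pe p' (fun ω => Fl (W ω)) := by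
    have : Pe p' (fun ω => Fl (W ω)) = Pool.KAF.Pr p' {ω | ∃ a b c : ℝ, a ^ 2 + b ^ 2 = 1 ∧
      δ < Pool.KAF.Pr (cond p' W (W ω)) {v | |a * o 0 v + b * o 1 v - c| ≤ 1 / 2 ^ g}} := by
      rw [hFl]
      rfl
    rw [this]
    exact hcon
  have h5 : δ ^ 2 < Pe p' (fun ω => Fl (W ω) ∧ G ω) := by nlinarith
  -- restrict to `A` and positive probability
  obtain ⟨E0, hE0⟩ : ∃ E0 : F.Ω → Prop, E0 = fun ω => On F A ω ∧ Fl (W ω) ∧ G ω := ⟨_, rfl⟩
  have h6 : Pe p' (fun ω => Fl (W ω) ∧ G ω) * Pe F.p A = Pe F.p E0 := by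
    rw [hp', Pe_cond, div_mul_cancel₀ _ hA.ne', Pe_eq, Pe_eq]
    refine Finset.sum_congr rfl fun ω _ => ?_
    rw [hE0]
    by_cases h7 : 0 < F.p ω
    · by_cases h8 : A ω ∧ (Fl (W ω) ∧ G ω)
      · rw [if_pos h8, if_pos ⟨⟨h7, h8.1⟩, h8.2⟩]
      · rw [if_neg h8, if_neg (fun h => h8 ⟨h.1.2, h.2⟩)]
    · have h8 : F.p ω = 0 := le_antisymm (not_lt.1 h7) (F.isLaw.nonneg ω)
      rw [h8]
      simp
  obtain ⟨E', hE'E, hPE', hdet⟩ := cnt_pigeon hN (E := E0) (fun ω hω => by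
    rw [hE0] at hω
    exact hω.1)
  have hE0A : ∀ ω, E0 ω → On F A ω ∧ Fl (W ω) ∧ G ω := fun ω hω => by
    rw [hE0] at hω
    exact hω
  have hN1 : 1 ≤ N := by
    have h7 : 0 < Pe F.p E0 := by
      rw [← h6]
      have : 0 < δ ^ 2 := by positivity
      exact mul_pos (by linarith) hA
    have h8 : ∃ ω, E0 ω := by
      by_contra hno'
      push Not at hno'
      have : Pe F.p E0 = 0 := by
        rw [Pe_eq]
        exact Finset.sum_eq_zero fun ω _ => if_neg (hno' ω)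
      linarith
    obtain ⟨ω, hω⟩ := h8
    exact hN.one_le (hE0A ω hω).1
  have hN0 : 0 < N := by linarith
  refine hno E' (fun ω hω => (hE0A ω (hE'E ω hω)).1.2) ?_ ?_
  · rw [div_mul_eq_mul_div, div_le_iff₀ hN0]
    have h7 : δ ^ 2 * Pe F.p A ≤ Pe p' (fun ω => Fl (W ω) ∧ G ω) * Pe F.p A :=
      mul_le_mul_of_nonneg_right h5.le hA.le
    rw [h6] at h7
    linarith
  -- the line in the zoom of the box
  obtain ⟨s', hs'⟩ := Nat.exists_eq_add_of_le hl
  have hs's : s' ≤ s := by omega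
  obtain ⟨M, hM⟩ : ∃ M : F.Ω → ℝ, M = fun ω =>
      max |(t (W ω)).1 + (t (W ω)).2.1 * (2 ^ l * (B.a ω - z ω))|
        |(t (W ω)).2.1 * (1 / 2 ^ s')| := ⟨_, rfl⟩
  obtain ⟨fx, hfx⟩ : ∃ fx : F.Ω → ℝ, fx = fun ω => ((B.lab ω).2.1 : ℝ) := ⟨_, rfl⟩
  obtain ⟨fy, hfy⟩ : ∃ fy : F.Ω → ℝ, fy = fun ω => ((B.lab ω).2.2 : ℝ) := ⟨_, rfl⟩
  have hMb : ∀ ω, E' ω → 1 / 2 ^ (s + C) ≤ M ω := by
    intro ω hω
    obtain ⟨a1, a2, a3⟩ := hE0A ω (hE'E ω hω)
    have a4 := (ht (W ω) a2).1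
    have a5 : |2 ^ l * (B.a ω - z ω)| ≤ C0 := by
      have := hcl ω a1
      rw [abs_mul, abs_of_pos (by positivity)]
      rw [le_div_iff₀ (by positivity)] at this
      linarith
    rw [hM]
    have a6 : (1 : ℝ) ≤ 2 ^ s' := one_le_pow₀ (by norm_num)
    refine exa_geo34 (s := s) (C := C) a4 a5 hC (by positivity) ?_ ?_
    · rw [div_mul_eq_mul_div, one_mul, le_div_iff₀ (by positivity), one_mul]
      exact pow_le_pow_right₀ (by norm_num) hs's
    · rw [div_le_one (by positivity)]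
      exact a6
  have hM0 : ∀ ω, E' ω → 0 < M ω := fun ω hω =>
    lt_of_lt_of_le (by positivity) (hMb ω hω)
  refine ⟨fun ω => ((t (W ω)).1 + (t (W ω)).2.1 * (2 ^ l * (B.a ω - z ω))) / M ω,
    fun ω => (t (W ω)).2.1 * (1 / 2 ^ s') / M ω,
    fun ω => (((t (W ω)).2.2 + (t (W ω)).1 * c0 ω + (t (W ω)).2.1 * c1 ω) / M ω -
      ((t (W ω)).1 + (t (W ω)).2.1 * (2 ^ l * (B.a ω - z ω))) / M ω * fx ω -
      (t (W ω)).2.1 * (1 / 2 ^ s') / M ω * fy ω), ?_, ?_⟩
  · intro ω ω' h7 h8 e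
    have b1 : W ω = W ω' := hdet ω ω' h7.2 h8.2 e
    have b2 := hz ω ω' (hE0A ω (hE'E ω h7.2)).1 (hE0A ω' (hE'E ω' h8.2)).1 b1
    have b3 := hP ω ω' (hE0A ω (hE'E ω h7.2)).1 (hE0A ω' (hE'E ω' h8.2)).1 e
    simp only [Prod.mk.injEq] at b2
    obtain ⟨b4, b5, b6⟩ := b2
    have b7 : B.a ω = B.a ω' := congrArg Prod.fst b3
    have b8 : M ω = M ω' := by
      rw [hM]
      simp only
      rw [b1, b4, b7]
    have b9 : fx ω = fx ω' := by
      rw [hfx]
      simp only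
      rw [b3]
    have b10 : fy ω = fy ω' := by
      rw [hfy]
      simp only
      rw [b3]
    simp only
    rw [b1, b4, b5, b6, b7, b8, b9, b10]
  · intro ω hω
    obtain ⟨a1, a2, a3⟩ := hE0A ω (hE'E ω hω.2)
    have a4 := hM0 ω hω.2
    have a5 : |(t (W ω)).1 + (t (W ω)).2.1 * (2 ^ l * (B.a ω - z ω))| ≤ M ω := by
      rw [hM]
      exact le_max_left _ _
    have a6 : |(t (W ω)).2.1 * (1 / 2 ^ s')| ≤ M ω := by
      rw [hM]
      exact le_max_right _ _
    have a7 : |(t (W ω)).1 + (t (W ω)).2.1 * (2 ^ l * (B.a ω - z ω))| = M ω ∨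
        |(t (W ω)).2.1 * (1 / 2 ^ s')| = M ω := by
      rw [hM]
      simp only
      rcases max_choice |(t (W ω)).1 + (t (W ω)).2.1 * (2 ^ l * (B.a ω - z ω))|
        |(t (W ω)).2.1 * (1 / 2 ^ s')| with h | h
      · exact Or.inl h.symm
      · exact Or.inr h.symm
    refine ⟨?_, ?_, ?_, ?_⟩
    · rw [abs_div, abs_of_pos a4, div_le_one a4]
      exact a5
    · rw [abs_div, abs_of_pos a4, div_le_one a4]
      exact a6
    · rcases a7 with h | h
      · left
        rw [abs_div, abs_of_pos a4, h, div_self a4.ne']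
      · right
        rw [abs_div, abs_of_pos a4, h, div_self a4.ne']
    · have b1 : |(t (W ω)).1 * o 0 ω + (t (W ω)).2.1 * o 1 ω - (t (W ω)).2.2| ≤ 1 / 2 ^ g := by
        rw [hG] at a3
        exact a3
      rw [ho0 ω a1, ho1 ω a1] at b1
      have b2 : (1 : ℝ) / 2 ^ g ≤ 1 / 2 ^ h * M ω := by
        have b3 := hMb ω hω.2
        have b4 : (1 : ℝ) / 2 ^ h * (1 / 2 ^ (s + C)) ≤ 1 / 2 ^ h * M ω :=
          mul_le_mul_of_nonneg_left b3 (by positivity)
        refine le_trans ?_ b4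
        rw [div_mul_div_comm, one_mul, ← pow_add]
        exact one_div_le_one_div_of_le (by positivity)
          (pow_le_pow_right₀ (by norm_num) (by omega))
      have b5 := exa_line34 (a := B.a ω) (fx := fx ω) (fy := fy ω) (n := B.n) hs' a4 b1 b2
      have b6 : B.om0 ω = 2 ^ B.q * F.d ω B.i0 - fx ω := by
        rw [hfx]
        rfl
      have b7 : B.om1 ω = 2 ^ B.n * (F.d ω (oth B.i0) - B.a ω * F.d ω B.i0) - fy ω := by
        rw [hfy]
        rfl
      rw [b6, b7]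
      exact b5

end Pool.PC
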