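import Pool.Agent.H54.PC.BoxDefs

/-!
# Row BOX: the part of a box in a strip (GeoStmt)
-/

set_option autoImplicit false

namespace Pool.PC

open Real

/-- Consequences of the strip. -/
theorem geo_in34 {a k x y Q N I T : ℝ} (ha : |a| ≤ 1) (hQ : 0 < Q) (hQN : Q ≤ N)
    (hT : 2 ≤ T) (hi : I = 1 ∨ I * Q < 2 * |k| * N)
    (hx : |x| * Q ≤ 1) (hy : |y - a * x| * N ≤ 1)
    (hs : |y - (a - k) * x| * (N * T) ≤ 1) :
    |k| * |x| * N ≤ 2 ∧ |x| * (Q * I * 2) ≤ 8 ∧ |y - (a - k) * x| * N ≤ 1 ∧
      |y| ≤ |y - a * x| + |x| := by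
  have hN : 0 < N := by linarith only [hQ, hQN]
  have ax := abs_nonneg x
  have ak := abs_nonneg k
  have as := abs_nonneg (y - (a - k) * x)
  have h1 : |y - (a - k) * x| * N ≤ 1 := by
    refine le_trans ?_ hs
    refine mul_le_mul_of_nonneg_left ?_ as
    nlinarith only [hQ, hQN, hT]
  have h2 : |k| * |x| * N ≤ 2 := by
    have e1 : k * x = (y - (a - k) * x) - (y - a * x) := by ring
    have e2 : |k| * |x| ≤ |y - (a - k) * x| + |y - a * x| := by
      rw [← abs_mul, e1]
      exact abs_sub _ _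
    calc |k| * |x| * N ≤ (|y - (a - k) * x| + |y - a * x|) * N :=
          mul_le_mul_of_nonneg_right e2 hN.le
      _ ≤ 2 := by linarith only [hy, h1]
  refine ⟨h2, ?_, h1, ?_⟩
  · rcases hi with hi | hi
    · rw [hi]
      nlinarith only [hx]
    · have e1 : |x| * (Q * I * 2) = 2 * (|x| * (I * Q)) := by ring
      have e2 : |x| * (I * Q) ≤ |x| * (2 * |k| * N) := mul_le_mul_of_nonneg_left hi.le ax
      rw [e1]
      nlinarith only [h2, e2]
  · have e1 : y = (y - a * x) + a * x := by ring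
    have e2 : |a * x| ≤ |x| := by
      rw [abs_mul]
      nlinarith only [ha, ax]
    calc |y| = |(y - a * x) + a * x| := by rw [← e1]
      _ ≤ |y - a * x| + |a * x| := abs_add_le _ _
      _ ≤ _ := by linarith only [e2]

theorem inv_row34 {a1 x y : ℝ} (h : 1 < |a1|) :
    |x - 1 / a1 * y| * |a1| = |y - a1 * x| := by
  have h0 : a1 ≠ 0 := by
    intro h0
    rw [h0, abs_zero] at h
    linarith only [h]
  rw [← abs_mul, ← abs_neg]
  congr 1
  field_simp
  ring

/-- The frame with the charts exchanged. -/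
theorem inv_out34 {a k x y : ℝ} (ha : |a| ≤ 1) (h : 1 < |a - k|) :
    |x| ≤ |y| + |x - 1 / (a - k) * y| ∧
      |y - a * x| * |a - k| ≤ |k| * |y| + |x - 1 / (a - k) * y| * |a - k| := by
  have h0 : a - k ≠ 0 := by
    intro h0
    rw [h0, abs_zero] at h
    linarith only [h]
  constructor
  · have e1 : x = 1 / (a - k) * y + (x - 1 / (a - k) * y) := by ring
    have e2 : |1 / (a - k) * y| ≤ |y| := by
      rw [abs_mul, abs_div, abs_one, div_mul_eq_mul_div, one_mul,
        div_le_iff₀ (by linarith only [h])]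
      have := abs_nonneg y
      nlinarith only [h, this]
    calc |x| = |1 / (a - k) * y + (x - 1 / (a - k) * y)| := by rw [← e1]
      _ ≤ |1 / (a - k) * y| + |x - 1 / (a - k) * y| := abs_add_le _ _
      _ ≤ _ := by linarith only [e2]
  · have e1 : (y - a * x) * (a - k) = -(k * y) - a * ((x - 1 / (a - k) * y) * (a - k)) := by
      field_simp
      ring
    rw [← abs_mul, e1]
    have e2 := abs_sub (-(k * y)) (a * ((x - 1 / (a - k) * y) * (a - k)))
    rw [abs_neg, abs_mul, abs_mul, abs_mul] at e2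
    have e3 : 0 ≤ |x - 1 / (a - k) * y| * |a - k| := by positivity
    nlinarith only [e2, ha, e3]

/-- The main case: the strip is not too steep. -/
theorem geo_main34 {a lam mu : ℝ} {q n g i : ℕ} (ha : |a| ≤ 1) (hqn : q ≤ n) (hl : |lam| ≤ 1)
    (hm0 : 0 < |mu|) (hi : i ≤ g + 4) (h1 : 1 ≤ |mu| * 2 ^ i)
    (h2 : i = 0 ∨ (|lam| = 1 ∧ |mu| * 2 ^ i < 2)) :
    ∃ (sw : Bool) (a' : ℝ) (q' n' : ℕ), |a'| ≤ 1 ∧ q' ≤ n' ∧ q + n + g ≤ q' + n' ∧
      n' ≤ n + (4 * g + 16) ∧
      (∀ x y : ℝ, |x| ≤ 1 / 2 ^ q → |y - a * x| ≤ 1 / 2 ^ n →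
        |lam * (2 ^ q * x) + mu * (2 ^ n * (y - a * x))| ≤ 2 / 2 ^ (4 * g + 16) →
        |if sw then y else x| ≤ 16 / 2 ^ q' ∧
        |(if sw then x else y) - a' * (if sw then y else x)| ≤ 16 / 2 ^ n') ∧
      (∀ x y : ℝ, |if sw then y else x| ≤ 1 / 2 ^ q' →
        |(if sw then x else y) - a' * (if sw then y else x)| ≤ 1 / 2 ^ n' →
        |x| ≤ 1 / 2 ^ q ∧ |y - a * x| ≤ 1 / 2 ^ n) := by
  obtain ⟨s, hs⟩ : ∃ s : ℕ, s + i + 1 = 4 * g + 16 := ⟨4 * g + 15 - i, by omega⟩
  obtain ⟨Q, hQ⟩ : ∃ Q : ℝ, Q = 2 ^ q := ⟨_, rfl⟩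
  obtain ⟨N, hN⟩ : ∃ N : ℝ, N = 2 ^ n := ⟨_, rfl⟩
  obtain ⟨I, hI⟩ : ∃ I : ℝ, I = 2 ^ i := ⟨_, rfl⟩
  obtain ⟨T, hT⟩ : ∃ T : ℝ, T = 2 ^ s := ⟨_, rfl⟩
  have Q0 : 0 < Q := by rw [hQ]; positivity
  have Q1 : 1 ≤ Q := by rw [hQ]; exact one_le_pow₀ (by norm_num)
  have N0 : 0 < N := by rw [hN]; positivity
  have I1 : 1 ≤ I := by rw [hI]; exact one_le_pow₀ (by norm_num)
  have T4 : 4 ≤ T := by
    rw [hT]
    calc (4 : ℝ) = 2 ^ 2 := by norm_num
      _ ≤ 2 ^ s := pow_le_pow_right₀ (by norm_num) (by omega)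
  have hQN : Q ≤ N := by rw [hQ, hN]; exact pow_le_pow_right₀ (by norm_num) hqn
  have hH : (2 : ℝ) ^ (4 * g + 16) = T * I * 2 := by
    rw [← hs, pow_succ, pow_add, hT, hI]
  have hm : mu ≠ 0 := abs_pos.mp hm0
  rw [← hI] at h1 h2
  obtain ⟨k, hk⟩ : ∃ k : ℝ, k = lam * Q / (mu * N) := ⟨_, rfl⟩
  have ak0 := abs_nonneg k
  have hkN : |k| * N * |mu| = |lam| * Q := by
    rw [hk, abs_div, abs_mul, abs_mul, abs_of_pos Q0, abs_of_pos N0]
    field_simp
  have hk1 : |k| * N ≤ I * Q := by
    by_contra hcon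
    push Not at hcon
    have e1 : |lam| * Q ≤ Q := by nlinarith only [hl, Q0]
    have e2 : |k| * N * |mu| ≤ Q := by rw [hkN]; exact e1
    have e3 : I * Q * |mu| < |k| * N * |mu| := mul_lt_mul_of_pos_right hcon hm0
    nlinarith only [hkN, e1, e3, h1, Q0]
  have hk2 : I = 1 ∨ I * Q < 2 * |k| * N := by
    rcases h2 with h2 | ⟨h2, h3⟩
    · left
      rw [hI, h2, pow_zero]
    · right
      by_contra hcon
      push Not at hcon
      have e1 : 2 * |k| * N * |mu| ≤ I * Q * |mu| := mul_le_mul_of_nonneg_right hcon hm0.le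
      have e2 : 2 * |k| * N * |mu| = 2 * Q := by
        rw [h2, one_mul] at hkN
        linarith only [hkN]
      have e3 : |mu| * I * Q < 2 * Q := mul_lt_mul_of_pos_right h3 Q0
      linarith only [e1, e2, e3]
  have strip : ∀ x y : ℝ, |lam * (2 ^ q * x) + mu * (2 ^ n * (y - a * x))| ≤
      2 / 2 ^ (4 * g + 16) → |y - (a - k) * x| * (N * T) ≤ 1 := by
    intro x y h
    rw [← hQ, ← hN, hH] at h
    have e1 : lam * (Q * x) + mu * (N * (y - a * x)) = mu * N * (y - (a - k) * x) := by
      rw [hk]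
      field_simp
      ring
    rw [e1, abs_mul, abs_mul, abs_of_pos N0, le_div_iff₀ (by positivity)] at h
    have e2 : 0 ≤ |y - (a - k) * x| * (N * T) := by positivity
    have e3 : |mu| * N * |y - (a - k) * x| * (T * I * 2) =
        2 * ((|mu| * I) * (|y - (a - k) * x| * (N * T))) := by ring
    rw [e3] at h
    nlinarith only [h, h1, e2]
  have rx : ∀ x : ℝ, |x| ≤ 1 / 2 ^ q → |x| * Q ≤ 1 := by
    intro x h
    rw [← hQ, le_div_iff₀ Q0] at h
    exact h
  have ry : ∀ y : ℝ, |y| ≤ 1 / 2 ^ n → |y| * N ≤ 1 := by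
    intro x h
    rw [← hN, le_div_iff₀ N0] at h
    exact h
  have hq1 : (2 : ℝ) ^ (q + i + 1) = Q * I * 2 := by rw [pow_succ, pow_add, hQ, hI]
  have hn1 : (2 : ℝ) ^ (n + s) = N * T := by rw [pow_add, hN, hT]
  have hki : 2 < |k| → n + 2 ≤ q + i := by
    intro h
    have : (2 : ℝ) ^ (n + 1) < 2 ^ (q + i) := by
      rw [pow_succ, pow_add, ← hN, ← hQ, ← hI]
      nlinarith only [hk1, N0, h]
    have := (pow_lt_pow_iff_right₀ (by norm_num : (1 : ℝ) < 2)).mp this
    omega
  by_cases hk3 : 2 < |k|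
  · -- [B2]
    have hni := hki hk3
    have ha1 : |k| / 2 ≤ |a - k| := by
      have e1 := abs_sub_abs_le_abs_sub k a
      rw [abs_sub_comm] at e1
      linarith only [ha, hk3, e1]
    have ha2 : 1 < |a - k| := by linarith only [hk3, ha1]
    have hI2 : I * Q < 2 * |k| * N := by
      rcases hk2 with h | h
      · rw [h]
        nlinarith only [N0, hQN, hk3]
      · exact h
    obtain ⟨n₁, hn₁⟩ : ∃ n₁ : ℕ, n₁ + 2 = q + (4 * g + 16) := ⟨q + (4 * g + 14), by omega⟩
    have hn2 : (2 : ℝ) ^ n₁ * 4 = Q * (T * I * 2) := by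
      rw [← hH, hQ, ← pow_add, ← hn₁, pow_add]
      norm_num
    have hn3 : 4 * N ≤ 2 ^ n₁ := by
      rw [hN]
      calc (4 : ℝ) * 2 ^ n = 2 ^ (n + 2) := by rw [pow_add]; norm_num; ring
        _ ≤ 2 ^ n₁ := pow_le_pow_right₀ (by norm_num) (by omega)
    obtain ⟨M, hM⟩ : ∃ M : ℝ, M = 2 ^ n₁ := ⟨_, rfl⟩
    have M0 : 0 < M := by rw [hM]; positivity
    rw [← hM] at hn2 hn3
    have hN4 : (2 : ℝ) ^ (n + 2) = N * 4 := by rw [pow_add, hN]; norm_num
    refine ⟨true, 1 / (a - k), n + 2, n₁, ?_, by omega, by omega, by omega, ?_, ?_⟩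
    · rw [abs_div, abs_one, div_le_one (by linarith only [ha2])]
      exact ha2.le
    · intro x y hx hy hst
      obtain ⟨g1, g2, g3, g4⟩ := geo_in34 ha Q0 hQN (by linarith only [T4]) hk2 (rx x hx) (ry _ hy)
        (strip x y hst)
      have g5 := strip x y hst
      have g6 := ry _ hy
      simp only [if_true]
      rw [hN4, ← hM, le_div_iff₀ (by positivity), le_div_iff₀ M0]
      have ax := abs_nonneg x
      constructor
      · have e1 : |x| * N ≤ 1 := by nlinarith only [hk3, g1, ak0, mul_nonneg ax N0.le]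
        nlinarith only [g6, e1, N0, g4]
      · have e1 := inv_row34 (x := x) (y := y) ha2
        obtain ⟨u, hu⟩ : ∃ u, u = |x - 1 / (a - k) * y| := ⟨_, rfl⟩
        obtain ⟨v, hv⟩ : ∃ v, v = |y - (a - k) * x| := ⟨_, rfl⟩
        have hu0 : 0 ≤ u := by rw [hu]; exact abs_nonneg _
        have hv0 : 0 ≤ v := by rw [hv]; exact abs_nonneg _
        rw [← hu, ← hv] at e1
        rw [← hv] at g5
        rw [← hu]
        have e2 : u * |k| ≤ 2 * v := by nlinarith only [e1, ha1, hu0]
        -- u * M = u * Q * T * I / 2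
        have e3 : u * M * 2 = u * (I * Q) * T := by linear_combination u / 2 * hn2
        have e4 : u * (I * Q) ≤ u * (2 * |k| * N) := mul_le_mul_of_nonneg_left hI2.le hu0
        have e5 : u * (I * Q) * T ≤ u * (2 * |k| * N) * T :=
          mul_le_mul_of_nonneg_right e4 (by linarith only [T4])
        have e6 : u * (2 * |k| * N) * T = 2 * (u * |k|) * (N * T) := by ring
        have e7 : 2 * (u * |k|) * (N * T) ≤ 2 * (2 * v) * (N * T) :=
          mul_le_mul_of_nonneg_right (by linarith only [e2]) (by positivity)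
        linarith only [g5, e3, e5, e7]
    · intro x y h3 h4
      simp only [if_true] at h3 h4
      rw [hN4, le_div_iff₀ (by positivity)] at h3
      rw [← hM, le_div_iff₀ M0] at h4
      obtain ⟨e1, e2⟩ := inv_out34 (x := x) (y := y) ha ha2
      rw [← hQ, ← hN, le_div_iff₀ Q0, le_div_iff₀ N0]
      obtain ⟨u, hu⟩ : ∃ u, u = |x - 1 / (a - k) * y| := ⟨_, rfl⟩
      have hu0 : 0 ≤ u := by rw [hu]; exact abs_nonneg _
      rw [← hu] at h4 e1 e2
      have ay := abs_nonneg y
      have uN : u * N ≤ 1 / 4 := by nlinarith only [h4, hn3, hu0]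
      constructor
      · have : |x| * Q ≤ (|y| + u) * Q := mul_le_mul_of_nonneg_right e1 Q0.le
        nlinarith only [N0, hQN, Q0, h3, uN, this]
      · by_contra hcon
        push Not at hcon
        have k1 : |k| * |y| ≤ 2 * |a - k| * |y| := mul_le_mul_of_nonneg_right (by linarith only [ha1]) ay
        have k2 : |y - a * x| * |a - k| ≤ (2 * |y| + u) * |a - k| := by linarith only [e2, k1]
        have k3 : |y - a * x| ≤ 2 * |y| + u := le_of_mul_le_mul_right k2 (by linarith only [ha2])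
        have k4 : |y - a * x| * N ≤ (2 * |y| + u) * N := mul_le_mul_of_nonneg_right k3 N0.le
        linarith only [h3, uN, hcon, k4]
  push Not at hk3
  have hq'n' : q + i + 1 ≤ n + s := by omega
  by_cases ha1 : |a - k| ≤ 1
  · -- [A]
    refine ⟨false, a - k, q + i + 1, n + s, ha1, hq'n', by omega, by omega, ?_, ?_⟩
    · intro x y hx hy hst
      obtain ⟨g1, g2, g3, g4⟩ := geo_in34 ha Q0 hQN (by linarith only [T4]) hk2 (rx x hx) (ry _ hy)
        (strip x y hst)
      have g5 := strip x y hst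
      simp only [Bool.false_eq_true, if_false]
      rw [hq1, hn1, le_div_iff₀ (by positivity), le_div_iff₀ (by positivity)]
      exact ⟨by linarith only [g2], by linarith only [g5]⟩
    · intro x y h3 h4
      simp only [Bool.false_eq_true, if_false] at h3 h4
      rw [hq1, le_div_iff₀ (by positivity)] at h3
      rw [hn1, le_div_iff₀ (by positivity)] at h4
      rw [← hQ, ← hN, le_div_iff₀ Q0, le_div_iff₀ N0]
      have ax := abs_nonneg x
      have e0 : |x| * Q * 1 ≤ |x| * Q * I := mul_le_mul_of_nonneg_left I1 (by positivity)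
      refine ⟨by linarith only [h3, e0], ?_⟩
      have e1 : y - a * x = (y - (a - k) * x) - k * x := by ring
      have e2 : |y - a * x| ≤ |y - (a - k) * x| + |k| * |x| := by
        rw [e1, ← abs_mul]
        exact abs_sub _ _
      have e3 : |y - a * x| * N ≤ (|y - (a - k) * x| + |k| * |x|) * N :=
        mul_le_mul_of_nonneg_right e2 N0.le
      have e4 : |k| * N * |x| ≤ I * Q * |x| := mul_le_mul_of_nonneg_right hk1 ax
      have e5 : 0 ≤ |y - (a - k) * x| * N := by positivity
      have e6 : |y - (a - k) * x| * N * 4 ≤ |y - (a - k) * x| * N * T :=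
        mul_le_mul_of_nonneg_left T4 e5
      linarith only [h3, h4, e3, e4, e6]
  · -- [B1]
    push Not at ha1
    refine ⟨true, 1 / (a - k), q + i + 1, n + s, ?_, hq'n', by omega, by omega, ?_, ?_⟩
    · rw [abs_div, abs_one, div_le_one (by linarith only [ha1])]
      exact ha1.le
    · intro x y hx hy hst
      obtain ⟨g1, g2, g3, g4⟩ := geo_in34 ha Q0 hQN (by linarith only [T4]) hk2 (rx x hx) (ry _ hy)
        (strip x y hst)
      have g5 := strip x y hst
      have g6 := ry _ hy
      simp only [if_true]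
      rw [hq1, hn1, le_div_iff₀ (by positivity), le_div_iff₀ (by positivity)]
      constructor
      · have ay := abs_nonneg (y - a * x)
        have e1 : |y - a * x| * (I * Q) ≤ 4 := by
          rcases hk2 with h | h
          · rw [h]
            nlinarith only [N0, hQN, Q0, g6]
          · have e2 : I * Q ≤ 4 * N := by nlinarith only [h, N0, hk3]
            have e3 : |y - a * x| * (I * Q) ≤ |y - a * x| * (4 * N) :=
              mul_le_mul_of_nonneg_left e2 ay
            linarith only [g6, e3]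
        have e4 : |y| * (Q * I * 2) ≤ (|y - a * x| + |x|) * (Q * I * 2) :=
          mul_le_mul_of_nonneg_right g4 (by positivity)
        linarith only [g2, e1, e4]
      · have e1 := inv_row34 (x := x) (y := y) ha1
        have e2 : |x - 1 / (a - k) * y| * 1 ≤ |x - 1 / (a - k) * y| * |a - k| :=
          mul_le_mul_of_nonneg_left ha1.le (abs_nonneg _)
        have e3 : |x - 1 / (a - k) * y| * (N * T) ≤ |y - (a - k) * x| * (N * T) :=
          mul_le_mul_of_nonneg_right (by linarith only [e1, e2]) (by positivity)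
        linarith only [g5, e3]
    · intro x y h3 h4
      simp only [if_true] at h3 h4
      rw [hq1, le_div_iff₀ (by positivity)] at h3
      rw [hn1, le_div_iff₀ (by positivity)] at h4
      obtain ⟨e1, e2⟩ := inv_out34 (x := x) (y := y) ha ha1
      rw [← hQ, ← hN, le_div_iff₀ Q0, le_div_iff₀ N0]
      obtain ⟨u, hu⟩ : ∃ u, u = |x - 1 / (a - k) * y| := ⟨_, rfl⟩
      have hu0 : 0 ≤ u := by rw [hu]; exact abs_nonneg _
      rw [← hu] at h4 e1 e2
      have ay := abs_nonneg y
      have uN : u * N * 4 ≤ 1 := by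
        have : u * N * 4 ≤ u * N * T := mul_le_mul_of_nonneg_left T4 (by positivity)
        linarith only [h4, this]
      have yQ : |y| * Q * 1 ≤ |y| * Q * I := mul_le_mul_of_nonneg_left I1 (by positivity)
      constructor
      · have h5 : |x| * Q ≤ (|y| + u) * Q := mul_le_mul_of_nonneg_right e1 Q0.le
        have h6 : u * Q ≤ u * N := mul_le_mul_of_nonneg_left hQN hu0
        linarith only [h3, uN, yQ, h5, h6]
      · have k3 : |y - a * x| ≤ |k| * |y| + u := by
          have k1 : |k| * |y| * 1 ≤ |k| * |y| * |a - k| :=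
            mul_le_mul_of_nonneg_left ha1.le (by positivity)
          have k2 : |y - a * x| * |a - k| ≤ (|k| * |y| + u) * |a - k| := by linarith only [e2, k1]
          exact le_of_mul_le_mul_right k2 (by linarith only [ha1])
        have k4 : |y - a * x| * N ≤ (|k| * |y| + u) * N := mul_le_mul_of_nonneg_right k3 N0.le
        have k5 : |k| * N * |y| ≤ I * Q * |y| := mul_le_mul_of_nonneg_right hk1 ay
        linarith only [h3, uN, k4, k5]

/-- **GEO**, with the constant `16`. -/
theorem geo16_34 (a lam mu : ℝ) (q n g : ℕ) (ha : |a| ≤ 1) (hqn : q ≤ n) (hl : |lam| ≤ 1)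
    (hm : |mu| ≤ 1) (hlm : |lam| = 1 ∨ |mu| = 1) :
    ∃ (sw : Bool) (a' : ℝ) (q' n' : ℕ), |a'| ≤ 1 ∧ q' ≤ n' ∧ q + n + g ≤ q' + n' ∧
      n' ≤ n + (4 * g + 16) ∧
      (∀ x y : ℝ, |x| ≤ 1 / 2 ^ q → |y - a * x| ≤ 1 / 2 ^ n →
        |lam * (2 ^ q * x) + mu * (2 ^ n * (y - a * x))| ≤ 2 / 2 ^ (4 * g + 16) →
        |if sw then y else x| ≤ 16 / 2 ^ q' ∧
        |(if sw then x else y) - a' * (if sw then y else x)| ≤ 16 / 2 ^ n') ∧
      (∀ x y : ℝ, |if sw then y else x| ≤ 1 / 2 ^ q' →
        |(if sw then x else y) - a' * (if sw then y else x)| ≤ 1 / 2 ^ n' →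
        |x| ≤ 1 / 2 ^ q ∧ |y - a * x| ≤ 1 / 2 ^ n) := by
  by_cases hC : |mu| * 2 ^ (g + 4) ≤ 1
  · -- [C]
    have hmu1 : |mu| < 1 := by
      have e1 : (16 : ℝ) ≤ 2 ^ (g + 4) := by
        calc (16 : ℝ) = 2 ^ 4 := by norm_num
          _ ≤ _ := pow_le_pow_right₀ (by norm_num) (by omega)
      have := abs_nonneg mu
      nlinarith only [hC, e1, this]
    have hl1 : |lam| = 1 := by
      rcases hlm with h | h
      · exact h
      · linarith only [hmu1, h]
    obtain ⟨Q, hQ⟩ : ∃ Q : ℝ, Q = 2 ^ q := ⟨_, rfl⟩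
    obtain ⟨N, hN⟩ : ∃ N : ℝ, N = 2 ^ n := ⟨_, rfl⟩
    obtain ⟨G, hG⟩ : ∃ G : ℝ, G = 2 ^ g := ⟨_, rfl⟩
    have Q0 : 0 < Q := by rw [hQ]; positivity
    have N0 : 0 < N := by rw [hN]; positivity
    have G1 : 1 ≤ G := by rw [hG]; exact one_le_pow₀ (by norm_num)
    have G0 : 0 < G := by linarith only [G1]
    have hG4 : (2 : ℝ) ^ (g + 4) = G * 16 := by rw [pow_add, hG]; norm_num
    rw [hG4] at hC
    have hH : G * 16 ≤ (2 : ℝ) ^ (4 * g + 16) / 2 := by
      rw [← hG4, le_div_iff₀ (by norm_num)]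
      calc (2 : ℝ) ^ (g + 4) * 2 = 2 ^ (g + 4 + 1) := (pow_succ (2 : ℝ) (g + 4)).symm
        _ ≤ _ := pow_le_pow_right₀ (by norm_num) (by omega)
    have hqg : (2 : ℝ) ^ (q + g) = Q * G := by rw [pow_add, hQ, hG]
    have key : ∀ x y : ℝ, |x| ≤ 1 / 2 ^ q → |y - a * x| ≤ 1 / 2 ^ n →
        |lam * (2 ^ q * x) + mu * (2 ^ n * (y - a * x))| ≤ 2 / 2 ^ (4 * g + 16) →
        |x| * (Q * G) * 8 ≤ 1 := by
      intro x y hx hy hst
      rw [← hQ, ← hN] at hst
      rw [← hN, le_div_iff₀ N0] at hy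
      obtain ⟨H, hHe⟩ : ∃ H : ℝ, H = 2 ^ (4 * g + 16) := ⟨_, rfl⟩
      rw [← hHe] at hst hH
      have H0 : 0 < H := by rw [hHe]; positivity
      have e1 : lam * (Q * x) = (lam * (Q * x) + mu * (N * (y - a * x))) -
          mu * (N * (y - a * x)) := by ring
      have e2 : |x| * Q ≤ 2 / H + |mu| * (|y - a * x| * N) := by
        have h3 : |lam * (Q * x)| = |x| * Q := by
          rw [abs_mul, abs_mul, hl1, abs_of_pos Q0]
          ring
        rw [← h3, e1]
        refine (abs_sub _ _).trans (add_le_add hst ?_)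
        rw [abs_mul, abs_mul, abs_of_pos N0]
        exact le_of_eq (by ring)
      have e3 : 2 / H ≤ 1 / (G * 16) := by
        rw [div_le_div_iff₀ H0 (by positivity)]
        linarith only [hH]
      have e4 : |mu| ≤ 1 / (G * 16) := by
        rw [le_div_iff₀ (by positivity)]
        exact hC
      have e5 : |mu| * (|y - a * x| * N) ≤ |mu| * 1 :=
        mul_le_mul_of_nonneg_left hy (abs_nonneg _)
      have e6 : |x| * Q ≤ 2 * (1 / (G * 16)) := by linarith only [e2, e3, e4, e5]
      have e7 : 2 * (1 / (G * 16)) * G * 8 = 1 := by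
        field_simp
        norm_num
      have e8 : |x| * Q * (G * 8) ≤ 2 * (1 / (G * 16)) * (G * 8) :=
        mul_le_mul_of_nonneg_right e6 (by positivity)
      linarith only [e7, e8]
    by_cases hqg1 : q + g ≤ n
    · refine ⟨false, a, q + g, n, ha, hqg1, by omega, by omega, ?_, ?_⟩
      · intro x y hx hy hst
        simp only [Bool.false_eq_true, if_false]
        have := key x y hx hy hst
        refine ⟨?_, hy.trans ?_⟩
        · rw [hqg, le_div_iff₀ (by positivity)]
          linarith only [this]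
        · exact div_le_div_of_nonneg_right (by norm_num) (by positivity)
      · intro x y h3 h4
        simp only [Bool.false_eq_true, if_false] at h3 h4
        refine ⟨h3.trans ?_, h4⟩
        exact one_div_le_one_div_of_le (by positivity)
          (pow_le_pow_right₀ (by norm_num) (by omega))
    · push Not at hqg1
      have hNG : N * 2 ≤ Q * G := by
        rw [← hqg, hN, ← pow_succ]
        exact pow_le_pow_right₀ (by norm_num) (by omega)
      have hN2 : (2 : ℝ) ^ (n + 1) = N * 2 := by rw [pow_succ, hN]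
      refine ⟨true, 0, n + 1, q + g, by simp, by omega, by omega, by omega, ?_, ?_⟩
      · intro x y hx hy hst
        simp only [if_true, zero_mul, sub_zero]
        have h1 := key x y hx hy hst
        have ax := abs_nonneg x
        rw [← hN, le_div_iff₀ N0] at hy
        rw [hqg, hN2, le_div_iff₀ (by positivity), le_div_iff₀ (by positivity)]
        refine ⟨?_, by linarith only [h1]⟩
        have e1 : y = (y - a * x) + a * x := by ring
        have e2 : |a * x| ≤ |x| := by
          rw [abs_mul]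
          nlinarith only [ha, ax]
        have e3 : |y| ≤ |y - a * x| + |x| := by
          calc |y| = |(y - a * x) + a * x| := by rw [← e1]
            _ ≤ |y - a * x| + |a * x| := abs_add_le _ _
            _ ≤ _ := by linarith only [e2]
        have e4 : |y| * (N * 2) ≤ (|y - a * x| + |x|) * (N * 2) :=
          mul_le_mul_of_nonneg_right e3 (by positivity)
        have e5 : |x| * (N * 2) ≤ |x| * (Q * G) := mul_le_mul_of_nonneg_left hNG ax
        linarith only [hy, h1, e4, e5]
      · intro x y h3 h4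
        simp only [if_true, zero_mul, sub_zero] at h3 h4
        rw [hN2, le_div_iff₀ (by positivity)] at h3
        have ax := abs_nonneg x
        constructor
        · refine h4.trans (one_div_le_one_div_of_le (by positivity)
            (pow_le_pow_right₀ (by norm_num) (by omega)))
        · rw [hqg, le_div_iff₀ (by positivity)] at h4
          rw [← hN, le_div_iff₀ N0]
          have e2 : |a * x| ≤ |x| := by
            rw [abs_mul]
            nlinarith only [ha, ax]
          have e3 : |y - a * x| ≤ |y| + |x| := (abs_sub _ _).trans (by linarith only [e2])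
          have e4 : |y - a * x| * (N * 2) ≤ (|y| + |x|) * (N * 2) :=
            mul_le_mul_of_nonneg_right e3 (by positivity)
          have e5 : |x| * (N * 2) ≤ |x| * (Q * G) := mul_le_mul_of_nonneg_left hNG ax
          linarith only [h3, h4, e4, e5]
  · push Not at hC
    have hm0 : 0 < |mu| := by
      by_contra h
      push Not at h
      have h0 : |mu| = 0 := le_antisymm h (abs_nonneg _)
      rw [h0, zero_mul] at hC
      linarith only [hC]
    have hex : ∃ i : ℕ, 1 ≤ |mu| * 2 ^ i := ⟨g + 4, hC.le⟩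
    classical
    obtain ⟨i, hi⟩ : ∃ i, i = Nat.find hex := ⟨_, rfl⟩
    have hi1 : 1 ≤ |mu| * 2 ^ i := by rw [hi]; exact Nat.find_spec hex
    have hi2 : i ≤ g + 4 := by rw [hi]; exact Nat.find_min' hex hC.le
    refine geo_main34 ha hqn hl hm0 hi2 hi1 ?_
    rcases Nat.eq_zero_or_pos i with h0 | hpos
    · exact Or.inl h0
    · right
      obtain ⟨j, hj⟩ : ∃ j, i = j + 1 := ⟨i - 1, by omega⟩
      have h1 : ¬ 1 ≤ |mu| * 2 ^ j := Nat.find_min hex (by rw [← hi]; omega)
      push Not at h1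
      have h2 : |mu| * 2 ^ i < 2 := by
        rw [hj, pow_succ]
        linarith only [h1]
      refine ⟨?_, h2⟩
      rcases hlm with h | h
      · exact h
      · exfalso
        rw [h, one_mul] at h1
        have : (1 : ℝ) ≤ 2 ^ j := one_le_pow₀ (by norm_num)
        linarith only [h1, this]

/-- **GEO.** -/
theorem geo_stmt34 : GeoStmt := by
  intro a lam mu q n g ha hqn hl hm hlm
  obtain ⟨sw, a', q', n', h1, h2, h3, h4, h5, h6⟩ := geo16_34 a lam mu q n g ha hqn hl hm hlm
  refine ⟨sw, a', q', n', h1, h2, h3, h4, fun x y hx hy hs => ?_, h6⟩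
  obtain ⟨k1, k2⟩ := h5 x y hx hy hs
  exact ⟨k1.trans (div_le_div_of_nonneg_right (by norm_num) (by positivity)),
    k2.trans (div_le_div_of_nonneg_right (by norm_num) (by positivity))⟩

end Pool.PC
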