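import Pool.Agent.H15.PC.Fam
import Pool.Agent.H86.OC.MIA

/-!
# Plan C, LEVNEST: the block of a level is known from the cumulative context and the context of a
later level
-/

set_option autoImplicit false

namespace Pool.PC

open Finset Real
open Pool.Agent.H49.Ent Pool.Agent.H32.Dense Pool.STK Pool.KA Pool.KSAT Pool.K2S

variable {J : ℕ}

/-! ### Frames of the plane in two charts -/

theorem oth_ne34 (i : Fin 2) : oth i ≠ i := by
  fin_cases i <;> decide

theorem two34 (i j : Fin 2) : j = i ∨ j = oth i := by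
  fin_cases i <;> fin_cases j <;> decide

theorem sum_two34 (i : Fin 2) (f : Fin 2 → ℝ) : ∑ j, f j = f i + f (oth i) := by
  fin_cases i
  · rw [Fin.sum_univ_two]
    rfl
  · rw [Fin.sum_univ_two, add_comm]
    rfl

/-- The dual basis of a frame. -/
noncomputable def dual34 (i : Fin 2) (z : Fin 2 → ℝ) (b k : Fin 2) : ℝ :=
  if k = b then 1 else if b = i then z k else 0

theorem dual_rep34 (i : Fin 2) (z x : Fin 2 → ℝ) (k : Fin 2) :
    x k = ∑ b, mco (zfr i z) x b * dual34 i z b k := by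
  have ho := oth_ne34 i
  rw [sum_two34 i, zfr_i0, zfr_ne ho]
  unfold dual34
  rcases two34 i k with rfl | hk
  · rw [if_pos rfl, if_neg (fun h => ho h.symm), if_neg ho]
    ring
  · rw [hk, if_neg ho, if_pos rfl, if_pos rfl]
    ring

/-- The change of the frame, between two charts. -/
noncomputable def lch34 (i i' : Fin 2) (z z' : Fin 2 → ℝ) (a b : Fin 2) : ℝ :=
  mco (zfr i z) (dual34 i' z' b) a

theorem cg_lch34 (i i' : Fin 2) (z z' : Fin 2 → ℝ) :
    Cg (zfr i' z') (zfr i z) (lch34 i i' z z') := by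
  intro x a
  unfold lch34 mco
  have h1 : ∀ k, zfr i z a k * x k =
      ∑ b, zfr i z a k * (mco (zfr i' z') x b * dual34 i' z' b k) := by
    intro k
    rw [← Finset.mul_sum, ← dual_rep34]
  rw [Finset.sum_congr rfl fun k _ => h1 k, Finset.sum_comm]
  refine Finset.sum_congr rfl fun b _ => ?_
  rw [Finset.sum_mul]
  refine Finset.sum_congr rfl fun k _ => ?_
  unfold mco
  ring

theorem lch_le34 {i i' : Fin 2} {z z' : Fin 2 → ℝ} (h : |z (oth i)| ≤ 1)
    (h' : |z' (oth i')| ≤ 1) (a b : Fin 2) : |lch34 i i' z z' a b| ≤ 2 := by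
  have hd : ∀ k, |dual34 i' z' b k| ≤ 1 := by
    intro k
    unfold dual34
    split_ifs with h1 h2
    · rw [abs_one]
    · have h3 : k = oth i' := by
        rcases two34 i' k with h3 | h3
        · exact absurd (h3.trans h2.symm) h1
        · exact h3
      rw [h3]
      exact h'
    · rw [abs_zero]
      exact zero_le_one
  unfold lch34
  rcases two34 i a with ha | ha
  · rw [ha, zfr_i0]
    exact (hd i).trans (by norm_num)
  · rw [ha, zfr_ne (oth_ne34 i)]
    refine (abs_sub _ _).trans ?_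
    rw [abs_mul]
    have h1 := hd (oth i)
    have h2 := hd i
    have h3 := mul_le_mul h h2 (abs_nonneg _) zero_le_one
    linarith

theorem qcv_i34 (q l : ℕ) (i : Fin 2) : qcv q l i i = q := by
  unfold qcv
  rw [if_pos rfl]

theorem qcv_o34 (q l : ℕ) (i : Fin 2) : qcv q l i (oth i) = q + l := by
  unfold qcv
  rw [if_neg (oth_ne34 i)]

/-- The change of the frame is bounded by the precisions, if one box contains the other one. -/
theorem lch_box34 {i i' : Fin 2} {z z' : Fin 2 → ℝ} {q l q' l' : ℕ} {D : ℝ}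
    (hsub : ∀ v : Fin 2 → ℝ, |v i'| ≤ 1 / 2 ^ q' →
      |v (oth i') - z' (oth i') * v i'| ≤ 1 / 2 ^ (q' + l') →
      |v i| ≤ D / 2 ^ q ∧ |v (oth i) - z (oth i) * v i| ≤ D / 2 ^ (q + l)) (a b : Fin 2) :
    |lch34 i i' z z' a b| ≤ D * 2 ^ (qcv q' l' i' b) / 2 ^ (qcv q l i a) := by
  have p0 : (0 : ℝ) < 2 ^ (qcv q' l' i' b) := by positivity
  obtain ⟨v, hv⟩ : ∃ v : Fin 2 → ℝ, v = fun k => 1 / 2 ^ (qcv q' l' i' b) * dual34 i' z' b k :=
    ⟨_, rfl⟩
  have ho' := oth_ne34 i'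
  have k1 : |v i'| ≤ 1 / 2 ^ q' ∧ |v (oth i') - z' (oth i') * v i'| ≤ 1 / 2 ^ (q' + l') := by
    rw [hv]
    unfold dual34
    simp only
    rcases two34 i' b with hb | hb
    · rw [hb, if_pos rfl, if_neg ho', if_pos rfl, qcv_i34, mul_one]
      refine ⟨?_, ?_⟩
      · rw [abs_of_pos (by positivity)]
      · rw [show 1 / (2 : ℝ) ^ q' * z' (oth i') - z' (oth i') * (1 / 2 ^ q') = 0 by ring,
          abs_zero]
        positivity
    · rw [hb, if_neg (fun h => ho' h.symm), if_neg ho', if_pos rfl, qcv_o34, mul_zero, mul_one,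
        mul_zero, sub_zero, abs_zero]
      refine ⟨by positivity, ?_⟩
      rw [abs_of_pos (by positivity)]
  obtain ⟨k2, k3⟩ := hsub v k1.1 k1.2
  have hlin : ∀ a, mco (zfr i z) v a =
      1 / 2 ^ (qcv q' l' i' b) * mco (zfr i z) (dual34 i' z' b) a := by
    intro a
    unfold mco
    rw [Finset.mul_sum]
    refine Finset.sum_congr rfl fun k _ => ?_
    rw [hv]
    ring
  have k4 : |mco (zfr i z) v a| ≤ D / 2 ^ (qcv q l i a) := by
    rcases two34 i a with ha | ha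
    · rw [ha, zfr_i0, qcv_i34]
      exact k2
    · rw [ha, zfr_ne (oth_ne34 i), qcv_o34]
      exact k3
  rw [hlin, abs_mul, abs_of_pos (by positivity), one_div, inv_mul_le_iff₀ p0] at k4
  unfold lch34
  refine k4.trans (le_of_eq ?_)
  ring

/-- **Change of the box**, with different charts, the same window. -/
theorem ctt_box34 {F : Fam 2 J} {p : F.Ω → ℝ} {S : Type} (hp : IsLaw p) {w : ℕ} (hw : w ≤ J)
    {i i' : Fin 2} {q l q' l' : ℕ} {z z' : F.Ω → Fin 2 → ℝ} {D : ℝ} (hD : 2 ≤ D)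
    (hz : ∀ ω, 0 < p ω → |z ω (oth i)| ≤ 1) (hz' : ∀ ω, 0 < p ω → |z' ω (oth i')| ≤ 1)
    (hsub : ∀ ω, 0 < p ω → ∀ v : Fin 2 → ℝ, |v i'| ≤ 1 / 2 ^ q' →
      |v (oth i') - z' ω (oth i') * v i'| ≤ 1 / 2 ^ (q' + l') →
      |v i| ≤ D / 2 ^ q ∧ |v (oth i) - z ω (oth i) * v i| ≤ D / 2 ^ (q + l))
    (W : F.Ω → S) (hW : ∀ ω ω', 0 < p ω → 0 < p ω' → W ω = W ω' →
      F.ctt w q' l' i' z' ω = F.ctt w q' l' i' z' ω' ∧ z ω (oth i) = z ω' (oth i)) :
    CH p (F.ctt w q l i z) W ≤ 2 * (((2 : ℕ) : ℝ) * Real.log (4 * ((2 : ℕ) : ℝ) * D + 3)) := by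
  refine Box.CH_mlb (F := F) hp (g := w) (g' := w)
    (k := fun j => min (qcv q' l' i' j + w) J)
    (c := qcv q' l' i') (k' := fun j => min (qcv q l i j + w) J) (c' := qcv q l i)
    (kk := fun j => min (qcv q' l' i' j + w) J) (M := fun ω => zfr i' (z' ω))
    (M' := fun ω => zfr i (z ω)) hw hw (by linarith) (fun j => le_rfl)
    (fun j => by rw [min_self]; exact min_le_left _ _) ?_ W ?_
  · intro ω hω
    refine ⟨lch34 i i' (z ω) (z' ω), cg_lch34 i i' (z ω) (z' ω), ?_,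
      fun a b => lch_box34 (hsub ω hω) a b⟩
    intro a b
    show |lch34 i i' (z ω) (z' ω) a b| ≤
      D * 2 ^ min (qcv q' l' i' b + w) J / 2 ^ min (qcv q l i a + w) J
    have h1 := lch_box34 (hsub ω hω) a b
    have h2 := lch_le34 (hz ω hω) (hz' ω hω) a b
    rcases le_total (qcv q' l' i' b + w) J with h3 | h3
    · rw [min_eq_left h3]
      refine h1.trans ?_
      rw [div_le_div_iff₀ (by positivity) (by positivity), mul_assoc, mul_assoc, ← pow_add,
        ← pow_add]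
      refine mul_le_mul_of_nonneg_left (pow_le_pow_right₀ (by norm_num) ?_) (by linarith)
      have := min_le_left (qcv q l i a + w) J
      omega
    · rw [min_eq_right h3, le_div_iff₀ (by positivity)]
      have h4 : (2 : ℝ) ^ min (qcv q l i a + w) J ≤ 2 ^ J :=
        pow_le_pow_right₀ (by norm_num) (min_le_right _ _)
      exact mul_le_mul (h2.trans hD) h4 (by positivity) (by linarith)
  · intro ω ω' hω hω' h
    obtain ⟨b1, b2⟩ := hW ω ω' hω hω' h
    refine ⟨b1, (ctt_ext b1).1, zfr_mk fun j hj => ?_⟩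
    rcases two34 i j with h3 | h3
    · exact absurd h3 hj
    · rw [h3]
      exact b2

/-! ### Boxes of two levels -/

/-- The closed box of a later level is inside the closed box of a level, shrunk. -/
theorem box_incl34 {F : Fam 2 J} {A : F.Ω → Prop} {B B' : Bx F} {g X s l l' : ℕ}
    (hsub : B'.Sub (B.sh g) A) (h1 : B.q + l ≤ B.n) (h3 : B'.n ≤ B'.q + l' + s)
    (h4 : X + s ≤ g) (h5 : B.n + X + s ≤ J) {C0 : ℝ} (hC0 : 0 ≤ C0) {ω : F.Ω}
    (hω : On F A ω) {z z' : ℝ} (hz : |B.a ω - z| ≤ C0 / 2 ^ l)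
    (hz' : |B'.a ω - z'| ≤ C0 / 2 ^ l') (v : Fin 2 → ℝ) (hv1 : |v B'.i0| ≤ 1 / 2 ^ B'.q)
    (hv2 : |v (oth B'.i0) - z' * v B'.i0| ≤ 1 / 2 ^ (B'.q + l')) :
    |v B.i0| ≤ (1 + C0) ^ 2 / 2 ^ (B.q + X) ∧
      |v (oth B.i0) - z * v B.i0| ≤ (1 + C0) ^ 2 / 2 ^ (B.q + X + l) := by
  obtain ⟨R, hR⟩ : ∃ R : ℝ, R = (1 + C0) * 2 ^ s := ⟨_, rfl⟩
  have hs1 : (1 : ℝ) ≤ 2 ^ s := one_le_pow₀ (by norm_num)
  have hR0 : 0 < R := by rw [hR]; positivity
  have hR1 : 1 ≤ R := by rw [hR]; nlinarith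
  -- in the own frame of the fine box
  have k1 : |v (oth B'.i0) - B'.a ω * v B'.i0| ≤ (1 + C0) / 2 ^ (B'.q + l') := by
    have e1 : v (oth B'.i0) - B'.a ω * v B'.i0 =
        (v (oth B'.i0) - z' * v B'.i0) - (B'.a ω - z') * v B'.i0 := by ring
    rw [e1]
    refine (abs_sub _ _).trans ?_
    rw [abs_mul]
    have e2 : |B'.a ω - z'| * |v B'.i0| ≤ C0 / 2 ^ l' * (1 / 2 ^ B'.q) :=
      mul_le_mul hz' hv1 (abs_nonneg _) (by positivity)
    have e3 : C0 / 2 ^ l' * (1 / 2 ^ B'.q) = C0 / 2 ^ (B'.q + l') := by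
      rw [pow_add]
      field_simp
    have e4 : (1 + C0) / (2 : ℝ) ^ (B'.q + l') = 1 / 2 ^ (B'.q + l') + C0 / 2 ^ (B'.q + l') := by
      ring
    rw [e3] at e2
    rw [e4]
    linarith
  have k2 : |v (oth B'.i0) - B'.a ω * v B'.i0| ≤ R / 2 ^ B'.n := by
    refine k1.trans ?_
    rw [hR, div_le_div_iff₀ (by positivity) (by positivity), mul_assoc, ← pow_add]
    refine mul_le_mul_of_nonneg_left (pow_le_pow_right₀ (by norm_num) (by omega)) (by linarith)
  have k3 : |v B'.i0| ≤ R / 2 ^ B'.q :=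
    hv1.trans (div_le_div_of_nonneg_right hR1 (by positivity))
  -- scaling
  have k4 : B'.In ω 1 (fun j => v j / R) := by
    refine ⟨?_, ?_⟩
    · show |v B'.i0 / R| ≤ 1 / 2 ^ B'.q
      rw [abs_div, abs_of_pos hR0, div_le_iff₀ hR0]
      refine k3.trans (le_of_eq ?_)
      ring
    · show |v (oth B'.i0) / R - B'.a ω * (v B'.i0 / R)| ≤ 1 / 2 ^ B'.n
      rw [show v (oth B'.i0) / R - B'.a ω * (v B'.i0 / R) =
        (v (oth B'.i0) - B'.a ω * v B'.i0) / R by ring, abs_div, abs_of_pos hR0,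
        div_le_iff₀ hR0]
      refine k2.trans (le_of_eq ?_)
      ring
  obtain ⟨k5, k6⟩ := hsub ω hω _ k4
  have k5 : |v B.i0 / R| ≤ 1 / 2 ^ min (B.q + g) J := k5
  have k6 : |v (oth B.i0) / R - B.a ω * (v B.i0 / R)| ≤ 1 / 2 ^ min (B.n + g) J := k6
  rw [abs_div, abs_of_pos hR0, div_le_iff₀ hR0] at k5
  rw [show v (oth B.i0) / R - B.a ω * (v B.i0 / R) =
    (v (oth B.i0) - B.a ω * v B.i0) / R by ring, abs_div, abs_of_pos hR0,
    div_le_iff₀ hR0] at k6
  have c0 : ∀ {a b : ℕ}, b + s ≤ a → 1 / (2 : ℝ) ^ a * R ≤ (1 + C0) / 2 ^ b := by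
    intro a b hab
    rw [hR, one_div_mul_eq_div, div_le_div_iff₀ (by positivity) (by positivity), mul_assoc,
      ← pow_add]
    exact mul_le_mul_of_nonneg_left (pow_le_pow_right₀ (by norm_num) (by omega)) (by linarith)
  have k7 : |v B.i0| ≤ (1 + C0) / 2 ^ (B.q + X) :=
    k5.trans (c0 (le_min (by omega) (by omega)))
  have k8 : |v (oth B.i0) - B.a ω * v B.i0| ≤ (1 + C0) / 2 ^ (B.n + X) :=
    k6.trans (c0 (le_min (by omega) (by omega)))
  constructor
  · refine k7.trans (div_le_div_of_nonneg_right ?_ (by positivity))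
    nlinarith
  · have e1 : v (oth B.i0) - z * v B.i0 =
        (v (oth B.i0) - B.a ω * v B.i0) + (B.a ω - z) * v B.i0 := by ring
    rw [e1]
    refine (abs_add_le _ _).trans ?_
    rw [abs_mul]
    have e2 : |B.a ω - z| * |v B.i0| ≤ C0 / 2 ^ l * ((1 + C0) / 2 ^ (B.q + X)) :=
      mul_le_mul hz k7 (abs_nonneg _) (by positivity)
    have e3 : C0 / 2 ^ l * ((1 + C0) / 2 ^ (B.q + X)) =
        C0 * (1 + C0) / 2 ^ (B.q + X + l) := by
      rw [pow_add 2 (B.q + X) l]
      field_simp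
    have e4 : (1 + C0) / (2 : ℝ) ^ (B.n + X) ≤ (1 + C0) / 2 ^ (B.q + X + l) :=
      div_le_div_of_nonneg_left (by linarith) (by positivity)
        (pow_le_pow_right₀ (by norm_num) (by omega))
    have e5 : (1 + C0) ^ 2 / (2 : ℝ) ^ (B.q + X + l) =
        (1 + C0) / 2 ^ (B.q + X + l) + C0 * (1 + C0) / 2 ^ (B.q + X + l) := by
      ring
    rw [e3] at e2
    rw [e5]
    linarith

/-- The constant of LEVNEST. -/
noncomputable def cLN : ℝ := 2 * (((2 : ℕ) : ℝ) * Real.log (4 * ((2 : ℕ) : ℝ) * (5 ^ 2) + 3))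

/-- **LEVNEST.** The block of `X` digits of the level `k` is known, up to a bounded number of
values, from the closed frame of the level `k` and the context of a later level. -/
theorem levnest {F : Fam 2 J} {S : Type} {B B' : Bx F} {g X s l l' w w₁ w₁' : ℕ}
    {z z' : F.Ω → Fin 2 → ℝ} (hw : w ≤ J) (hz : Cld F B w₁ l z) (hz' : Cld F B' w₁' l' z')
    (hsub : B'.Sub (B.sh g) (fun _ => True)) (h1 : B.q + l ≤ B.n)
    (h3 : B'.n ≤ B'.q + l' + s) (h4 : X + s ≤ g) (h5 : B.n + X + s ≤ J)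
    (W : F.Ω → S) (hW : ∀ ω ω', 0 < F.p ω → 0 < F.p ω' → W ω = W ω' →
      F.ctt w B'.q l' B'.i0 z' ω = F.ctt w B'.q l' B'.i0 z' ω' ∧
        z ω (oth B.i0) = z ω' (oth B.i0)) :
    CH F.p (F.ctt w (B.q + X) l B.i0 z) W ≤ cLN := by
  refine ctt_box34 F.isLaw hw (D := 5 ^ 2) (by norm_num) (fun ω _ => hz.le1 ω _)
    (fun ω _ => hz'.le1 ω _) (fun ω hω v hv1 hv2 => ?_) W hW
  have := box_incl34 hsub h1 h3 h4 h5 (C0 := 4) (by norm_num) (ω := ω) ⟨hω, trivial⟩
    (hz.near ω hω) (hz'.near ω hω) v hv1 hv2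
  norm_num at this ⊢
  exact this

/-! ### Cumulative contexts -/

theorem chn_sub34 {F : Fam 2 J} {A : F.Ω → Prop} {M g : ℕ} {B : ℕ → Bx F} {N : ℕ → ℝ}
    (h : Chn F A M g B N) {k k' : ℕ} (hk : k < k') (hk' : k' < M) :
    (B k').Sub ((B k).sh g) A := by
  obtain ⟨d, rfl⟩ : ∃ d, k' = k + 1 + d := ⟨k' - (k + 1), by omega⟩
  clear hk
  induction d with
  | zero => exact h.ins k hk'
  | succ d ih =>
    have h1 : (B (k + 1 + (d + 1))).Sub ((B (k + 1 + d)).sh g) A := h.ins (k + 1 + d) hk'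
    exact (h1.trans (Bx.sh_sub (h.ok _ (by omega)) g)).trans (ih (by omega))

section cumu

variable {F : Fam 2 J} {B : ℕ → Bx F} {wk l : ℕ → ℕ} {z : ℕ → F.Ω → Fin 2 → ℝ}

/-- Cumulative contexts are nested. -/
theorem cum_mono34 {k k' : ℕ} (hk : k ≤ k') (w : ℕ) {ω ω' : F.Ω}
    (h : cum F B wk l z k' w ω = cum F B wk l z k' w ω') :
    cum F B wk l z k w ω = cum F B wk l z k w ω' := by
  funext j
  by_cases hj : j ≤ k ∧ wk j ≤ w
  · have h1 := congrFun h j
    unfold cum at h1 ⊢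
    rw [if_pos ⟨hj.1.trans hk, hj.2⟩, if_pos ⟨hj.1.trans hk, hj.2⟩] at h1
    rw [if_pos hj, if_pos hj, h1]
  · unfold cum
    rw [if_neg hj, if_neg hj]

/-- The cumulative context contains the contexts of the closed levels. -/
theorem cum_ctt34 {k j : ℕ} (hj : j ≤ k) {w : ℕ} (hw : wk j ≤ w) {ω ω' : F.Ω}
    (h : cum F B wk l z k w ω = cum F B wk l z k w ω') :
    F.ctt w (B j).q (l j) (B j).i0 (z j) ω = F.ctt w (B j).q (l j) (B j).i0 (z j) ω' := by
  have h1 := congrFun h j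
  unfold cum at h1
  rw [if_pos ⟨hj, hw⟩, if_pos ⟨hj, hw⟩] at h1
  exact Option.some.inj h1

/-- **LEVNEST**, cumulative contexts: the block of `X` digits of the level `k` is known, up to a
bounded number of values, from the cumulative context of a later level. -/
theorem levnest_cum {M g X s w k k' : ℕ} {N : ℕ → ℝ} (hc : Chn F (fun _ => True) M g B N)
    (hw : w ≤ J) (hk : k < k') (hk' : k' < M) (w1 : wk k ≤ w) (w2 : wk k' ≤ w)
    (z1 : Cld F (B k) (wk k) (l k) (z k)) (z2 : Cld F (B k') (wk k') (l k') (z k'))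
    (h1 : (B k).q + l k ≤ (B k).n) (h3 : (B k').n ≤ (B k').q + l k' + s) (h4 : X + s ≤ g)
    (h5 : (B k).n + X + s ≤ J) :
    CH F.p (F.ctt w ((B k).q + X) (l k) (B k).i0 (z k)) (cum F B wk l z k' w) ≤ cLN := by
  refine levnest hw z1 z2 (chn_sub34 hc hk hk') h1 h3 h4 h5 _ fun ω ω' _ _ h => ?_
  refine ⟨cum_ctt34 le_rfl w2 h, ?_⟩
  have e1 := cum_ctt34 hk.le w1 h
  exact zfr_eq (ctt_ext e1).2.1 (oth_ne34 _)

/-- The dependence of the digits of the time and of the block of the level `k`, in the cumulative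
context, is at most the loss of entropy of the digits of the time up to a later level. -/
theorem mi_step34 {M g X s w k k' : ℕ} {N : ℕ → ℝ} (hc : Chn F (fun _ => True) M g B N)
    (hw : w ≤ J) (hk : k < k') (hk' : k' < M) (w1 : wk k ≤ w) (w2 : wk k' ≤ w)
    (z1 : Cld F (B k) (wk k) (l k) (z k)) (z2 : Cld F (B k') (wk k') (l k') (z k'))
    (h1 : (B k).q + l k ≤ (B k).n) (h3 : (B k').n ≤ (B k').q + l k' + s) (h4 : X + s ≤ g)
    (h5 : (B k).n + X + s ≤ J) {S : Type} (T : F.Ω → S) :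
    Pool.OC.RS.mi F.p T (F.ctt w ((B k).q + X) (l k) (B k).i0 (z k)) (cum F B wk l z k w) +
      CH F.p T (cum F B wk l z k' w) ≤ CH F.p T (cum F B wk l z k w) + cLN := by
  have hp := F.isLaw.nonneg
  have e1 := levnest_cum hc hw hk hk' w1 w2 z1 z2 h1 h3 h4 h5
  have e2 := CH_le_add hp T (F.ctt w ((B k).q + X) (l k) (B k).i0 (z k)) (cum F B wk l z k' w)
  have e3 : CH F.p T (fun ω => (F.ctt w ((B k).q + X) (l k) (B k).i0 (z k) ω,
      cum F B wk l z k' w ω)) ≤
      CH F.p T (fun ω => (F.ctt w ((B k).q + X) (l k) (B k).i0 (z k) ω,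
        cum F B wk l z k w ω)) :=
    CH_mono_cond hp fun ω ω' _ _ h => by
      have h' := Prod.ext_iff.mp h
      exact Prod.ext h'.1 (cum_mono34 hk.le w h'.2)
  rw [Pool.OC.RS.mi_eq hp]
  linarith

/-- **The sum over the levels.** The dependences of the digits of the time and of the blocks of
the closed levels, each in its cumulative context, have the sum at most `X log 2 + O(M)`. -/
theorem levnest_sum {M g X s w : ℕ} {N : ℕ → ℝ} (hc : Chn F (fun _ => True) M g B N)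
    (hw : w + X ≤ J) (h4 : X + s ≤ g) (K : Finset ℕ) (hK : ∀ k ∈ K, k < M ∧ wk k ≤ w ∧
      Cld F (B k) (wk k) (l k) (z k) ∧ (B k).q + l k ≤ (B k).n ∧
      (B k).n ≤ (B k).q + l k + s)
    (h5 : ∀ k ∈ K, ∀ k' ∈ K, k < k' → (B k).n + X + s ≤ J) :
    ∑ k ∈ K, Pool.OC.RS.mi F.p (F.T1 (w + X)) (F.ctt w ((B k).q + X) (l k) (B k).i0 (z k))
      (cum F B wk l z k w) ≤ X * Real.log 2 + K.card * cLN := by
  have hp := F.isLaw.nonneg
  have hc0 : 0 ≤ cLN := by
    unfold cLN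
    have : 0 ≤ Real.log (4 * ((2 : ℕ) : ℝ) * (5 ^ 2) + 3) := Real.log_nonneg (by norm_num)
    positivity
  have hT : ∀ k, wk k ≤ w → CH F.p (F.T1 (w + X)) (cum F B wk l z k w) ≤ X * Real.log 2 := by
    intro k hk
    have := CH_T1w F (Nat.le_add_right w X) hw (cum F B wk l z k w)
      (fun ω ω' _ _ h => (ctt_ext (cum_ctt34 le_rfl hk h)).1)
    push_cast at this
    linarith
  -- the telescope below a level
  have key : ∀ K' : Finset ℕ, K' ⊆ K → ∀ k₀ ∈ K, (∀ k ∈ K', k < k₀) →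
      ∑ k ∈ K', Pool.OC.RS.mi F.p (F.T1 (w + X)) (F.ctt w ((B k).q + X) (l k) (B k).i0 (z k))
        (cum F B wk l z k w) + CH F.p (F.T1 (w + X)) (cum F B wk l z k₀ w) ≤
        X * Real.log 2 + K'.card * cLN := by
    intro K'
    refine Finset.induction_on_max K' ?_ ?_
    · intro _ k₀ hk₀ _
      rw [Finset.sum_empty, Finset.card_empty]
      have := hT k₀ (hK k₀ hk₀).2.1
      push_cast
      linarith
    · intro a K₁ ha ih hsub k₀ hk₀ hlt
      have haK : a ∈ K := hsub (Finset.mem_insert_self a K₁)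
      have ha' : a ∉ K₁ := fun h => lt_irrefl a (ha a h)
      have h6 := ih (fun x hx => hsub (Finset.mem_insert_of_mem hx)) a haK ha
      have h7 : a < k₀ := hlt a (Finset.mem_insert_self a K₁)
      obtain ⟨a1, a2, a3, a4, a5⟩ := hK a haK
      obtain ⟨b1, b2, b3, b4, b5⟩ := hK k₀ hk₀
      have h8 := mi_step34 hc (by omega) h7 b1 a2 b2 a3 b3 a4 b5 h4 (h5 a haK k₀ hk₀ h7)
        (F.T1 (w + X))
      rw [Finset.sum_insert ha', Finset.card_insert_of_notMem ha']
      push_cast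
      linarith
  rcases K.eq_empty_or_nonempty with rfl | hne
  · rw [Finset.sum_empty, Finset.card_empty]
    have : 0 ≤ Real.log 2 := Real.log_nonneg (by norm_num)
    push_cast
    positivity
  · obtain ⟨a, ha⟩ : ∃ a, a = K.max' hne := ⟨_, rfl⟩
    have haK : a ∈ K := by
      rw [ha]
      exact K.max'_mem hne
    have h6 := key (K.erase a) (Finset.erase_subset a K) a haK (fun k hk => by
      have h7 := Finset.mem_erase.mp hk
      exact lt_of_le_of_ne (by rw [ha]; exact K.le_max' k h7.2) h7.1)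
    have h7 : Pool.OC.RS.mi F.p (F.T1 (w + X)) (F.ctt w ((B a).q + X) (l a) (B a).i0 (z a))
        (cum F B wk l z a w) ≤ CH F.p (F.T1 (w + X)) (cum F B wk l z a w) := by
      rw [Pool.OC.RS.mi_eq hp]
      have := CH_nonneg hp (F.T1 (w + X)) (fun ω =>
        (F.ctt w ((B a).q + X) (l a) (B a).i0 (z a) ω, cum F B wk l z a w ω))
      linarith
    have h8 : ((K.erase a).card : ℝ) ≤ K.card := by
      exact_mod_cast Finset.card_le_card (Finset.erase_subset a K)
    have h9 := mul_le_mul_of_nonneg_right h8 hc0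
    rw [← Finset.sum_erase_add _ _ haK]
    linarith

end cumu

end Pool.PC
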