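import Pool.Agent.H34.PC.LevNest

/-!
# Plan C, LEVNEST at the saturated precision, and the sum over the levels
-/

set_option autoImplicit false

namespace Pool.PC

open Finset Real
open Pool.Agent.H49.Ent Pool.Agent.H32.Dense Pool.STK Pool.KA Pool.KSAT Pool.K2S

variable {J : ℕ}

/-- The closed box of a later level is inside the closed box of a level, shrunk: at most `J`
digits, with a loss of `s` digits. -/
theorem box_sat34 {F : Fam 2 J} {A : F.Ω → Prop} {B B' : Bx F} {g X s l lX l' : ℕ}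
    (hsub : B'.Sub (B.sh g) A) (h1 : B.q + l ≤ B.n) (h3 : B'.n ≤ B'.q + l' + s)
    (h4 : X ≤ g) (hl : lX ≤ l) (h5 : B.q + X + lX ≤ J) {C0 : ℝ} (hC0 : 0 ≤ C0) {ω : F.Ω}
    (hω : On F A ω) {z z' : ℝ} (hz : |B.a ω - z| ≤ C0 / 2 ^ l)
    (hz' : |B'.a ω - z'| ≤ C0 / 2 ^ l') (v : Fin 2 → ℝ) (hv1 : |v B'.i0| ≤ 1 / 2 ^ B'.q)
    (hv2 : |v (oth B'.i0) - z' * v B'.i0| ≤ 1 / 2 ^ (B'.q + l')) :
    |v B.i0| ≤ (1 + C0) ^ 2 * 2 ^ s / 2 ^ (B.q + X) ∧
      |v (oth B.i0) - z * v B.i0| ≤ (1 + C0) ^ 2 * 2 ^ s / 2 ^ (B.q + X + lX) := by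
  obtain ⟨R, hR⟩ : ∃ R : ℝ, R = (1 + C0) * 2 ^ s := ⟨_, rfl⟩
  have hs1 : (1 : ℝ) ≤ 2 ^ s := one_le_pow₀ (by norm_num)
  have hR0 : 0 < R := by rw [hR]; positivity
  have hR1 : 1 ≤ R := by rw [hR]; nlinarith
  have hRe : (1 + C0) ^ 2 * 2 ^ s = (1 + C0) * R := by rw [hR]; ring
  -- in the own frame of the fine box
  have k1 : |v (oth B'.i0) - B'.a ω * v B'.i0| ≤ (1 + C0) / 2 ^ (B'.q + l') := by
    have e1 : v (oth B'.i0) - B'.a ω * v B'.i0 =
        (v (oth B'.i0) - z' * v B'.i0) - (B'.a ω - z') * v B'.i0 := by ring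
    rw [e1]
    refine (abs_sub _ _).trans ?_
    rw [abs_mul]
    have e2 : |B'.a ω - z'| * |v B'.i0| ≤ C0 / 2 ^ l' * (1 / 2 ^ B'.q) :=
      mul_le_mul hz' hv1 (abs_nonneg _) (by positivity)
    have e3 : C0 / 2 ^ l' * (1 / 2 ^ B'.q) = C0 / 2 ^ (B'.q + l') := by
      rw [pow_add]
      field_simp
    have e4 : (1 + C0) / (2 : ℝ) ^ (B'.q + l') = 1 / 2 ^ (B'.q + l') + C0 / 2 ^ (B'.q + l') := by
      ring
    rw [e3] at e2
    rw [e4]
    linarith
  have k2 : |v (oth B'.i0) - B'.a ω * v B'.i0| ≤ R / 2 ^ B'.n := by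
    refine k1.trans ?_
    rw [hR, div_le_div_iff₀ (by positivity) (by positivity), mul_assoc, ← pow_add]
    refine mul_le_mul_of_nonneg_left (pow_le_pow_right₀ (by norm_num) (by omega)) (by linarith)
  have k3 : |v B'.i0| ≤ R / 2 ^ B'.q :=
    hv1.trans (div_le_div_of_nonneg_right hR1 (by positivity))
  -- scaling
  have k4 : B'.In ω 1 (fun j => v j / R) := by
    refine ⟨?_, ?_⟩
    · show |v B'.i0 / R| ≤ 1 / 2 ^ B'.q
      rw [abs_div, abs_of_pos hR0, div_le_iff₀ hR0]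
      refine k3.trans (le_of_eq ?_)
      ring
    · show |v (oth B'.i0) / R - B'.a ω * (v B'.i0 / R)| ≤ 1 / 2 ^ B'.n
      rw [show v (oth B'.i0) / R - B'.a ω * (v B'.i0 / R) =
        (v (oth B'.i0) - B'.a ω * v B'.i0) / R by ring, abs_div, abs_of_pos hR0,
        div_le_iff₀ hR0]
      refine k2.trans (le_of_eq ?_)
      ring
  obtain ⟨k5, k6⟩ := hsub ω hω _ k4
  have k5 : |v B.i0 / R| ≤ 1 / 2 ^ min (B.q + g) J := k5
  have k6 : |v (oth B.i0) / R - B.a ω * (v B.i0 / R)| ≤ 1 / 2 ^ min (B.n + g) J := k6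
  rw [abs_div, abs_of_pos hR0, div_le_iff₀ hR0] at k5
  rw [show v (oth B.i0) / R - B.a ω * (v B.i0 / R) =
    (v (oth B.i0) - B.a ω * v B.i0) / R by ring, abs_div, abs_of_pos hR0,
    div_le_iff₀ hR0] at k6
  have c0 : ∀ {a b : ℕ}, b ≤ a → 1 / (2 : ℝ) ^ a * R ≤ R / 2 ^ b := by
    intro a b hab
    rw [one_div_mul_eq_div]
    exact div_le_div_of_nonneg_left hR0.le (by positivity)
      (pow_le_pow_right₀ (by norm_num) hab)
  have k7 : |v B.i0| ≤ R / 2 ^ (B.q + X) :=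
    k5.trans (c0 (le_min (by omega) (by omega)))
  have k8 : |v (oth B.i0) - B.a ω * v B.i0| ≤ R / 2 ^ (B.q + X + lX) :=
    k6.trans (c0 (le_min (by omega) (by omega)))
  rw [hRe]
  constructor
  · refine k7.trans (div_le_div_of_nonneg_right ?_ (by positivity))
    nlinarith
  · have e1 : v (oth B.i0) - z * v B.i0 =
        (v (oth B.i0) - B.a ω * v B.i0) + (B.a ω - z) * v B.i0 := by ring
    rw [e1]
    refine (abs_add_le _ _).trans ?_
    rw [abs_mul]
    have e0 : C0 / (2 : ℝ) ^ l ≤ C0 / 2 ^ lX :=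
      div_le_div_of_nonneg_left hC0 (by positivity) (pow_le_pow_right₀ (by norm_num) hl)
    have e2 : |B.a ω - z| * |v B.i0| ≤ C0 / 2 ^ lX * (R / 2 ^ (B.q + X)) :=
      mul_le_mul (hz.trans e0) k7 (abs_nonneg _) (by positivity)
    have e3 : C0 / 2 ^ lX * (R / 2 ^ (B.q + X)) = C0 * R / 2 ^ (B.q + X + lX) := by
      rw [pow_add 2 (B.q + X) lX]
      field_simp
    have e5 : (1 + C0) * R / (2 : ℝ) ^ (B.q + X + lX) =
        R / 2 ^ (B.q + X + lX) + C0 * R / 2 ^ (B.q + X + lX) := by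
      ring
    rw [e3] at e2
    rw [e5]
    linarith

theorem cLN_nonneg : 0 ≤ cLN := by
  unfold cLN
  have : 0 ≤ Real.log (4 * ((2 : ℕ) : ℝ) * (5 ^ 2) + 3) := Real.log_nonneg (by norm_num)
  positivity

/-- **LEVNEST**, saturated. The block of `X` digits of the level `k`, with at most `J` digits of
the normal velocity, is known, up to the entropy `O(s)`, from the closed frame of the level `k` and
the context of a later level. -/
theorem levnest_sat {F : Fam 2 J} {S : Type} {B B' : Bx F} {g X s l lX l' w w₁ w₁' : ℕ}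
    {z z' : F.Ω → Fin 2 → ℝ} (hw : w ≤ J) (hz : Cld F B w₁ l z) (hz' : Cld F B' w₁' l' z')
    (hsub : B'.Sub (B.sh g) (fun _ => True)) (h1 : B.q + l ≤ B.n)
    (h3 : B'.n ≤ B'.q + l' + s) (h4 : X ≤ g) (hl : lX ≤ l) (h5 : B.q + X + lX ≤ J)
    (W : F.Ω → S) (hW : ∀ ω ω', 0 < F.p ω → 0 < F.p ω' → W ω = W ω' →
      F.ctt w B'.q l' B'.i0 z' ω = F.ctt w B'.q l' B'.i0 z' ω' ∧
        z ω (oth B.i0) = z ω' (oth B.i0)) :
    CH F.p (F.ctt w (B.q + X) lX B.i0 z) W ≤ cLN + 4 * s * Real.log 2 := by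
  have hs1 : (1 : ℝ) ≤ 2 ^ s := one_le_pow₀ (by norm_num)
  refine (ctt_box34 F.isLaw hw (D := 5 ^ 2 * 2 ^ s) (by nlinarith) (fun ω _ => hz.le1 ω _)
    (fun ω _ => hz'.le1 ω _) (fun ω hω v hv1 hv2 => ?_) W hW).trans ?_
  · have := box_sat34 hsub h1 h3 h4 hl h5 (C0 := 4) (by norm_num) (ω := ω) ⟨hω, trivial⟩
      (hz.near ω hω) (hz'.near ω hω) v hv1 hv2
    norm_num at this ⊢
    exact this
  · have e1 : Real.log (4 * ((2 : ℕ) : ℝ) * (5 ^ 2 * 2 ^ s) + 3) ≤
        Real.log (4 * ((2 : ℕ) : ℝ) * (5 ^ 2) + 3) + s * Real.log 2 := by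
      rw [← Real.log_pow, ← Real.log_mul (by norm_num) (by positivity)]
      refine Real.log_le_log (by positivity) ?_
      push_cast
      nlinarith
    unfold cLN
    push_cast at e1 ⊢
    linarith

section cumu

variable {F : Fam 2 J} {B : ℕ → Bx F} {wk l : ℕ → ℕ} {z : ℕ → F.Ω → Fin 2 → ℝ}

/-- **LEVNEST**, saturated, cumulative contexts. -/
theorem levnest_sat_cum {M g X s lX w k k' : ℕ} {N : ℕ → ℝ}
    (hc : Chn F (fun _ => True) M g B N)
    (hw : w ≤ J) (hk : k < k') (hk' : k' < M) (w1 : wk k ≤ w) (w2 : wk k' ≤ w)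
    (z1 : Cld F (B k) (wk k) (l k) (z k)) (z2 : Cld F (B k') (wk k') (l k') (z k'))
    (h1 : (B k).q + l k ≤ (B k).n) (h3 : (B k').n ≤ (B k').q + l k' + s) (h4 : X ≤ g)
    (hl : lX ≤ l k) (h5 : (B k).q + X + lX ≤ J) :
    CH F.p (F.ctt w ((B k).q + X) lX (B k).i0 (z k)) (cum F B wk l z k' w) ≤
      cLN + 4 * s * Real.log 2 := by
  refine levnest_sat hw z1 z2 (chn_sub34 hc hk hk') h1 h3 h4 hl h5 _ fun ω ω' _ _ h => ?_
  refine ⟨cum_ctt34 le_rfl w2 h, ?_⟩
  have e1 := cum_ctt34 hk.le w1 h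
  exact zfr_eq (ctt_ext e1).2.1 (oth_ne34 _)

/-- The telescope, for any blocks that are known in the later levels up to the entropy `c₀`. -/
theorem mi_sum34 {p : F.Ω → ℝ} (hp : ∀ ω, 0 ≤ p ω) {S : Type} (T : F.Ω → S)
    {R : ℕ → Type} (L : (k : ℕ) → F.Ω → R k) {w : ℕ} (K : Finset ℕ) {a c₀ : ℝ} (ha : 0 ≤ a)
    (hc₀ : 0 ≤ c₀) (hT : ∀ k ∈ K, CH p T (cum F B wk l z k w) ≤ a)
    (hL : ∀ k ∈ K, ∀ k' ∈ K, k < k' → CH p (L k) (cum F B wk l z k' w) ≤ c₀) :
    ∑ k ∈ K, Pool.OC.RS.mi p T (L k) (cum F B wk l z k w) ≤ a + K.card * c₀ := by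
  have key : ∀ K' : Finset ℕ, K' ⊆ K → ∀ k₀ ∈ K, (∀ k ∈ K', k < k₀) →
      ∑ k ∈ K', Pool.OC.RS.mi p T (L k) (cum F B wk l z k w) +
        CH p T (cum F B wk l z k₀ w) ≤ a + K'.card * c₀ := by
    intro K'
    refine Finset.induction_on_max K' ?_ ?_
    · intro _ k₀ hk₀ _
      rw [Finset.sum_empty, Finset.card_empty]
      have := hT k₀ hk₀
      push_cast
      linarith
    · intro a₁ K₁ h₁ ih hsub k₀ hk₀ hlt
      have haK : a₁ ∈ K := hsub (Finset.mem_insert_self a₁ K₁)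
      have ha' : a₁ ∉ K₁ := fun h => lt_irrefl a₁ (h₁ a₁ h)
      have h6 := ih (fun x hx => hsub (Finset.mem_insert_of_mem hx)) a₁ haK h₁
      have h7 : a₁ < k₀ := hlt a₁ (Finset.mem_insert_self a₁ K₁)
      have e1 := hL a₁ haK k₀ hk₀ h7
      have e2 := CH_le_add hp T (L a₁) (cum F B wk l z k₀ w)
      have e3 : CH p T (fun ω => (L a₁ ω, cum F B wk l z k₀ w ω)) ≤
          CH p T (fun ω => (L a₁ ω, cum F B wk l z a₁ w ω)) :=
        CH_mono_cond hp fun ω ω' _ _ h => by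
          have h' := Prod.ext_iff.mp h
          exact Prod.ext h'.1 (cum_mono34 h7.le w h'.2)
      have e4 := Pool.OC.RS.mi_eq hp T (L a₁) (cum F B wk l z a₁ w)
      rw [Finset.sum_insert ha', Finset.card_insert_of_notMem ha']
      push_cast
      linarith
  rcases K.eq_empty_or_nonempty with rfl | hne
  · rw [Finset.sum_empty, Finset.card_empty]
    push_cast
    linarith
  · obtain ⟨a₁, h₁⟩ : ∃ a₁, a₁ = K.max' hne := ⟨_, rfl⟩
    have haK : a₁ ∈ K := by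
      rw [h₁]
      exact K.max'_mem hne
    have h6 := key (K.erase a₁) (Finset.erase_subset a₁ K) a₁ haK (fun k hk => by
      have h7 := Finset.mem_erase.mp hk
      exact lt_of_le_of_ne (by rw [h₁]; exact K.le_max' k h7.2) h7.1)
    have h7 : Pool.OC.RS.mi p T (L a₁) (cum F B wk l z a₁ w) ≤
        CH p T (cum F B wk l z a₁ w) := by
      rw [Pool.OC.RS.mi_eq hp]
      have := CH_nonneg hp T (fun ω => (L a₁ ω, cum F B wk l z a₁ w ω))
      linarith
    have h8 : ((K.erase a₁).card : ℝ) ≤ K.card := by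
      exact_mod_cast Finset.card_le_card (Finset.erase_subset a₁ K)
    have h9 := mul_le_mul_of_nonneg_right h8 hc₀
    rw [← Finset.sum_erase_add _ _ haK]
    linarith

/-- The digits of the time, in a cumulative context. -/
theorem cum_T34 {X w : ℕ} (hw : w + X ≤ J) {k : ℕ} (hk : wk k ≤ w) :
    CH F.p (F.T1 (w + X)) (cum F B wk l z k w) ≤ X * Real.log 2 := by
  have := CH_T1w F (Nat.le_add_right w X) hw (cum F B wk l z k w)
    (fun ω ω' _ _ h => (ctt_ext (cum_ctt34 le_rfl hk h)).1)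
  push_cast at this
  linarith

open Classical in
/-- **The sum over the levels.** The dependences of the digits of the time and of the blocks of
the closed levels, each in its cumulative context, have the sum at most
`X log 2 + M (cLN + 4 s log 2)`. -/
theorem kch34 {M g X s w : ℕ} {N : ℕ → ℝ} (hc : Chn F (fun _ => True) M g B N)
    (hw : w + X ≤ J) (h4 : X ≤ g) (hK : ∀ k < M, wk k ≤ J →
      Cld F (B k) (wk k) (l k) (z k) ∧ (B k).q + l k ≤ (B k).n ∧
      (B k).n ≤ (B k).q + l k + s) :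
    ∑ k ∈ range M, (if wk k ≤ w ∧ (B k).q + w + X ≤ J then
      Pool.OC.RS.mi F.p (F.T1 (w + X))
        (F.ctt w ((B k).q + X) (min (l k) (J - (B k).q - X)) (B k).i0 (z k))
        (cum F B wk l z k w) else 0) ≤
      X * Real.log 2 + M * (cLN + 4 * s * Real.log 2) := by
  have hl2 : 0 ≤ Real.log 2 := Real.log_nonneg (by norm_num)
  have hc0 : 0 ≤ cLN + 4 * s * Real.log 2 := by
    have := cLN_nonneg
    positivity
  rw [← Finset.sum_filter]
  have h1 := mi_sum34 (F := F) (B := B) (wk := wk) (l := l) (z := z) F.isLaw.nonneg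
    (F.T1 (w + X))
    (fun k => F.ctt w ((B k).q + X) (min (l k) (J - (B k).q - X)) (B k).i0 (z k)) (w := w)
    ((range M).filter (fun k => wk k ≤ w ∧ (B k).q + w + X ≤ J)) (a := X * Real.log 2)
    (c₀ := cLN + 4 * s * Real.log 2) (by positivity) hc0 ?_ ?_
  · refine h1.trans ?_
    have h2 : (((range M).filter (fun k => wk k ≤ w ∧ (B k).q + w + X ≤ J)).card : ℝ) ≤ M := by
      have h3 := Finset.card_le_card (Finset.filter_subset
        (fun k => wk k ≤ w ∧ (B k).q + w + X ≤ J) (range M))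
      rw [Finset.card_range] at h3
      exact_mod_cast h3
    have h3 := mul_le_mul_of_nonneg_right h2 hc0
    linarith
  · intro k hk
    rw [mem_filter, mem_range] at hk
    exact cum_T34 hw hk.2.1
  · intro k hk k' hk' hlt
    rw [mem_filter, mem_range] at hk hk'
    obtain ⟨a1, a2, a3⟩ := hk
    obtain ⟨b1, b2, b3⟩ := hk'
    obtain ⟨a4, a5, a6⟩ := hK k a1 (by omega)
    obtain ⟨b4, b5, b6⟩ := hK k' b1 (by omega)
    exact levnest_sat_cum hc (by omega) hlt b1 a2 b2 a4 b4 a5 b6 h4 (min_le_left _ _) (by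
      have := min_le_right (l k) (J - (B k).q - X)
      omega)

end cumu

end Pool.PC
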